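import Mathlib

set_option autoImplicit false

namespace Pool.Agent.P.MP_51e3d2_lc

/-- An algebra of the signature (meet, join, implication, 0, 1); no laws are imposed. -/
structure Alg : Type 1 where
  carrier : Type
  meet : carrier → carrier → carrier
  join : carrier → carrier → carrier
  imp : carrier → carrier → carrier
  zero : carrier
  one : carrier

/-- Terms of the signature in the variables `x 0, x 1, ...`. -/
inductive Term : Type
  | var (i : ℕ) : Term
  | meet (s t : Term) : Term
  | join (s t : Term) : Term
  | imp (s t : Term) : Term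
  | zero : Term
  | one : Term

/-- The value of a term in an algebra under a valuation. -/
def Term.eval (B : Alg) (w : ℕ → B.carrier) : Term → B.carrier
  | .var i => w i
  | .meet s t => B.meet (s.eval B w) (t.eval B w)
  | .join s t => B.join (s.eval B w) (t.eval B w)
  | .imp s t => B.imp (s.eval B w) (t.eval B w)
  | .zero => B.zero
  | .one => B.one

/-- `B` satisfies the identity `e.1 = e.2`. -/
def SatId (B : Alg) (e : Term × Term) : Prop :=
  ∀ w : ℕ → B.carrier, e.1.eval B w = e.2.eval B w

/-- `B` satisfies the quasi-identity with the finite list of premises `q.1` and conclusion `q.2`. -/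
def SatQ (B : Alg) (q : List (Term × Term) × (Term × Term)) : Prop :=
  ∀ w : ℕ → B.carrier, (∀ e ∈ q.1, e.1.eval B w = e.2.eval B w) → q.2.1.eval B w = q.2.2.eval B w

/-- A variety is the class of all models of a set of identities. -/
def IsVariety (V : Set Alg) : Prop :=
  ∃ E : Set (Term × Term), V = {B | ∀ e ∈ E, SatId B e}

/-- A quasivariety is the class of all models of a set of quasi-identities. -/
def IsQuasivariety (K : Set Alg) : Prop :=
  ∃ T : Set (List (Term × Term) × (Term × Term)), K = {B | ∀ q ∈ T, SatQ B q}

/-- The quasivariety generated by `A`. -/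
def QuasiGen (A : Alg) : Set Alg :=
  {B | ∀ q, SatQ A q → SatQ B q}

/-- Every subquasivariety is a relative variety. -/
def Primitive (K : Set Alg) : Prop :=
  ∀ K' : Set Alg, IsQuasivariety K' → K' ⊆ K → ∃ V : Set Alg, IsVariety V ∧ K' = K ∩ V

/-- A Heyting algebra as an algebra of the signature. -/
def ofHeyting (A : Type) [HeytingAlgebra A] : Alg :=
  ⟨A, fun a b => a ⊓ b, fun a b => a ⊔ b, fun a b => a ⇨ b, ⊥, ⊤⟩

/-- The table of a binary operation on a set whose elements are numbered `0, ..., n-1` by `e`. -/
def opTable {A : Type} {n : ℕ} (e : Fin n ≃ A) (f : A → A → A) : List (List ℕ) :=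
  List.ofFn fun i : Fin n => List.ofFn fun j : Fin n => (e.symm (f (e i) (e j))).val

end Pool.Agent.P.MP_51e3d2_lc
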