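import Mathlib
import Pool.Agent.P.MP_51e3d2_lc.Defs

set_option autoImplicit false

namespace Pool.Agent.P.MP_51e3d2_lc

/-- The direct square of an algebra. -/
def Alg.sq (A : Alg) : Alg :=
  ⟨A.carrier × A.carrier, fun p q => (A.meet p.1 q.1, A.meet p.2 q.2),
    fun p q => (A.join p.1 q.1, A.join p.2 q.2), fun p q => (A.imp p.1 q.1, A.imp p.2 q.2),
    (A.zero, A.zero), (A.one, A.one)⟩

/-- `S` is closed under the three operations and contains the two constants. -/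
def Closed (B : Alg) (S : Set B.carrier) : Prop :=
  (∀ x ∈ S, ∀ y ∈ S, B.meet x y ∈ S ∧ B.join x y ∈ S ∧ B.imp x y ∈ S) ∧ B.zero ∈ S ∧ B.one ∈ S

/-- The subalgebra with carrier `S`. -/
def Alg.sub (B : Alg) (S : Set B.carrier) (h : Closed B S) : Alg :=
  ⟨S, fun x y => ⟨B.meet x y, (h.1 _ x.2 _ y.2).1⟩, fun x y => ⟨B.join x y, (h.1 _ x.2 _ y.2).2.1⟩,
    fun x y => ⟨B.imp x y, (h.1 _ x.2 _ y.2).2.2⟩, ⟨B.zero, h.2.1⟩, ⟨B.one, h.2.2⟩⟩

end Pool.Agent.P.MP_51e3d2_lc
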