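import Mathlib
import Pool.Agent.P.MP_51e3d2_lc.Defs

/-!
A finite criterion for primitivity of the quasivariety generated by a finite algebra.
-/

set_option autoImplicit false

namespace Pool.Agent.P.MP_51e3d2_lc

/-- Homomorphisms. -/
structure IsHom (B C : Alg) (h : B.carrier → C.carrier) : Prop where
  meet : ∀ x y, h (B.meet x y) = C.meet (h x) (h y)
  join : ∀ x y, h (B.join x y) = C.join (h x) (h y)
  imp : ∀ x y, h (B.imp x y) = C.imp (h x) (h y)
  zero : h B.zero = C.zero
  one : h B.one = C.one

lemma IsHom.eval {B C : Alg} {h : B.carrier → C.carrier} (hh : IsHom B C h) (w : ℕ → B.carrier)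
    (t : Term) : h (t.eval B w) = t.eval C (fun i => h (w i)) := by
  induction t with
  | var i => rfl
  | meet s t hs ht => simp only [Term.eval, hh.meet, hs, ht]
  | join s t hs ht => simp only [Term.eval, hh.join, hs, ht]
  | imp s t hs ht => simp only [Term.eval, hh.imp, hs, ht]
  | zero => exact hh.zero
  | one => exact hh.one

/-- The homomorphisms from `B` to `A` separate the points of `B`. -/
def Sep (B A : Alg) : Prop :=
  ∀ x y : B.carrier, x ≠ y → ∃ h : B.carrier → A.carrier, IsHom B A h ∧ h x ≠ h y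

/-- `C` is a homomorphic image of `B`. -/
def Onto (B C : Alg) : Prop :=
  ∃ h : B.carrier → C.carrier, IsHom B C h ∧ Function.Surjective h

lemma Sep.satQ {B A : Alg} (h : Sep B A) {q : List (Term × Term) × (Term × Term)}
    (hq : SatQ A q) : SatQ B q := by
  intro w hw
  by_contra hne
  obtain ⟨g, hg, hne'⟩ := h _ _ hne
  apply hne'
  rw [hg.eval, hg.eval]
  apply hq
  intro e he
  rw [← hg.eval, ← hg.eval, hw e he]

lemma sep_of_injective {B A : Alg} {h : B.carrier → A.carrier} (hh : IsHom B A h)
    (hi : Function.Injective h) : Sep B A :=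
  fun _ _ hxy => ⟨h, hh, fun e => hxy (hi e)⟩

lemma Onto.satId {B C : Alg} (h : Onto B C) {e : Term × Term} (he : SatId B e) : SatId C e := by
  obtain ⟨g, hg, hs⟩ := h
  intro w
  choose u hu using fun i => hs (w i)
  have : w = fun i => g (u i) := funext fun i => (hu i).symm
  rw [this, ← hg.eval, ← hg.eval, he u]

lemma satId_iff (B : Alg) (e : Term × Term) : SatId B e ↔ SatQ B ([], e) := by
  constructor
  · intro h w _
    exact h w
  · intro h w
    exact h w (by simp)

lemma Sep.satId {B A : Alg} (h : Sep B A) {e : Term × Term} (he : SatId A e) : SatId B e := by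
  rw [satId_iff] at he ⊢
  exact h.satQ he

/-- A finite member of the quasivariety generated by `A` is separated by its maps to `A`. -/
lemma sep_of_mem {B A : Alg} [Finite B.carrier] (h : B ∈ QuasiGen A) : Sep B A := by
  classical
  have : Fintype B.carrier := Fintype.ofFinite _
  obtain ⟨n, ⟨e⟩⟩ := Finite.exists_equiv_fin B.carrier
  intro x y hxy
  let v : B.carrier → Term := fun b => Term.var (e b).val
  let prem : List (Term × Term) :=
    ((Finset.univ : Finset (B.carrier × B.carrier)).toList.flatMap fun p =>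
      [(v (B.meet p.1 p.2), Term.meet (v p.1) (v p.2)),
       (v (B.join p.1 p.2), Term.join (v p.1) (v p.2)),
       (v (B.imp p.1 p.2), Term.imp (v p.1) (v p.2))]) ++
      [(v B.zero, Term.zero), (v B.one, Term.one)]
  have hB : ¬ SatQ B (prem, (v x, v y)) := by
    intro hs
    let w : ℕ → B.carrier := fun i => if hi : i < n then e.symm ⟨i, hi⟩ else B.zero
    have hv : ∀ b, (v b).eval B w = b := by
      intro b
      simp [v, w, Term.eval]
    apply hxy
    have := hs w ?_
    · simpa [hv] using this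
    · intro p hp
      simp only [prem, List.mem_append, List.mem_flatMap, List.mem_cons, List.not_mem_nil,
        or_false] at hp
      rcases hp with ⟨r, -, rfl | rfl | rfl⟩ | rfl | rfl <;> simp only [Term.eval, hv]
  have hA : ¬ SatQ A (prem, (v x, v y)) := fun hs => hB (h _ hs)
  simp only [SatQ, not_forall] at hA
  obtain ⟨w, hw, hne⟩ := hA
  have hmem : ∀ a b : B.carrier, (v (B.meet a b), Term.meet (v a) (v b)) ∈ prem ∧
      (v (B.join a b), Term.join (v a) (v b)) ∈ prem ∧
      (v (B.imp a b), Term.imp (v a) (v b)) ∈ prem := by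
    intro a b
    simp only [prem, List.mem_append, List.mem_flatMap, List.mem_cons, List.not_mem_nil,
      or_false, Finset.mem_toList, Finset.mem_univ, true_and]
    exact ⟨Or.inl ⟨(a, b), Or.inl rfl⟩, Or.inl ⟨(a, b), Or.inr (Or.inl rfl)⟩,
      Or.inl ⟨(a, b), Or.inr (Or.inr rfl)⟩⟩
  refine ⟨fun b => w (e b).val, ⟨?_, ?_, ?_, ?_, ?_⟩, hne⟩
  · intro a b
    exact hw _ (hmem a b).1
  · intro a b
    exact hw _ (hmem a b).2.1
  · intro a b
    exact hw _ (hmem a b).2.2
  · exact hw (v B.zero, Term.zero) (by simp [prem])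
  · exact hw (v B.one, Term.one) (by simp [prem])

/-- Renaming of variables. -/
def Term.rename (r : ℕ → ℕ) : Term → Term
  | .var i => .var (r i)
  | .meet s t => .meet (s.rename r) (t.rename r)
  | .join s t => .join (s.rename r) (t.rename r)
  | .imp s t => .imp (s.rename r) (t.rename r)
  | .zero => .zero
  | .one => .one

lemma eval_rename (B : Alg) (w : ℕ → B.carrier) (r : ℕ → ℕ) (t : Term) :
    (t.rename r).eval B w = t.eval B (fun i => w (r i)) := by
  induction t with
  | var i => rfl
  | meet s t hs ht => simp only [Term.eval, Term.rename, hs, ht]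
  | join s t hs ht => simp only [Term.eval, Term.rename, hs, ht]
  | imp s t hs ht => simp only [Term.eval, Term.rename, hs, ht]
  | zero => rfl
  | one => rfl

/-- A strict bound for the variables of a term. -/
def Term.bound : Term → ℕ
  | .var i => i + 1
  | .meet s t => max s.bound t.bound
  | .join s t => max s.bound t.bound
  | .imp s t => max s.bound t.bound
  | .zero => 0
  | .one => 0

lemma eval_congr (B : Alg) (w w' : ℕ → B.carrier) (t : Term) (h : ∀ i < t.bound, w i = w' i) :
    t.eval B w = t.eval B w' := by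
  induction t with
  | var i => exact h i (by simp [Term.bound])
  | meet s t hs ht =>
    simp only [Term.eval]
    rw [hs fun i hi => h i (lt_max_of_lt_left hi), ht fun i hi => h i (lt_max_of_lt_right hi)]
  | join s t hs ht =>
    simp only [Term.eval]
    rw [hs fun i hi => h i (lt_max_of_lt_left hi), ht fun i hi => h i (lt_max_of_lt_right hi)]
  | imp s t hs ht =>
    simp only [Term.eval]
    rw [hs fun i hi => h i (lt_max_of_lt_left hi), ht fun i hi => h i (lt_max_of_lt_right hi)]
  | zero => rfl
  | one => rfl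

lemma exists_bound (l : List (Term × Term)) :
    ∃ k, ∀ e ∈ l, e.1.bound ≤ k ∧ e.2.bound ≤ k := by
  induction l with
  | nil => exact ⟨0, by simp⟩
  | cons a l ih =>
    obtain ⟨k, hk⟩ := ih
    refine ⟨max k (max a.1.bound a.2.bound), ?_⟩
    intro e he
    rcases List.mem_cons.1 he with rfl | he
    · omega
    · have := hk e he
      omega

/-- The subalgebra generated by the values of a valuation. -/
def gen (B : Alg) (w : ℕ → B.carrier) : Alg where
  carrier := {x : B.carrier // ∃ t : Term, t.eval B w = x}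
  meet x y := ⟨B.meet x.1 y.1, by
    obtain ⟨s, hs⟩ := x.2
    obtain ⟨t, ht⟩ := y.2
    exact ⟨.meet s t, by simp only [Term.eval, hs, ht]⟩⟩
  join x y := ⟨B.join x.1 y.1, by
    obtain ⟨s, hs⟩ := x.2
    obtain ⟨t, ht⟩ := y.2
    exact ⟨.join s t, by simp only [Term.eval, hs, ht]⟩⟩
  imp x y := ⟨B.imp x.1 y.1, by
    obtain ⟨s, hs⟩ := x.2
    obtain ⟨t, ht⟩ := y.2
    exact ⟨.imp s t, by simp only [Term.eval, hs, ht]⟩⟩
  zero := ⟨B.zero, .zero, rfl⟩
  one := ⟨B.one, .one, rfl⟩

lemma gen_hom (B : Alg) (w : ℕ → B.carrier) : IsHom (gen B w) B Subtype.val :=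
  ⟨fun _ _ => rfl, fun _ _ => rfl, fun _ _ => rfl, rfl, rfl⟩

lemma gen_sep (B : Alg) (w : ℕ → B.carrier) : Sep (gen B w) B :=
  sep_of_injective (gen_hom B w) Subtype.val_injective

/-- The generators as elements of the generated subalgebra. -/
def genVal (B : Alg) (w : ℕ → B.carrier) (i : ℕ) : (gen B w).carrier := ⟨w i, .var i, rfl⟩

lemma gen_eval (B : Alg) (w : ℕ → B.carrier) (t : Term) :
    (t.eval (gen B w) (genVal B w)).1 = t.eval B w :=
  (gen_hom B w).eval (genVal B w) t

/-- If every equation between terms true at `w` is true at `u`, then the algebra generated by `u`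
is a homomorphic image of the algebra generated by `w`. -/
lemma onto_gen {B C : Alg} (w : ℕ → B.carrier) (u : ℕ → C.carrier)
    (h : ∀ s t : Term, s.eval B w = t.eval B w → s.eval C u = t.eval C u) :
    Onto (gen B w) (gen C u) := by
  choose τ hτ using fun x : (gen B w).carrier => x.2
  refine ⟨fun x => ⟨(τ x).eval C u, τ x, rfl⟩, ⟨?_, ?_, ?_, ?_, ?_⟩, ?_⟩
  · intro x y
    apply Subtype.ext
    exact h (τ ((gen B w).meet x y)) (.meet (τ x) (τ y)) (by simp only [Term.eval, hτ]; rfl)
  · intro x y
    apply Subtype.ext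
    exact h (τ ((gen B w).join x y)) (.join (τ x) (τ y)) (by simp only [Term.eval, hτ]; rfl)
  · intro x y
    apply Subtype.ext
    exact h (τ ((gen B w).imp x y)) (.imp (τ x) (τ y)) (by simp only [Term.eval, hτ]; rfl)
  · apply Subtype.ext
    exact h (τ (gen B w).zero) .zero (by simp only [Term.eval, hτ]; rfl)
  · apply Subtype.ext
    exact h (τ (gen B w).one) .one (by simp only [Term.eval, hτ]; rfl)
  · rintro ⟨_, t, rfl⟩
    refine ⟨⟨t.eval B w, t, rfl⟩, Subtype.ext ?_⟩
    exact h _ t (hτ ⟨t.eval B w, t, rfl⟩)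

/-- Local finiteness: a `k`-generated member of the quasivariety of `A` injects into the set of
`k`-ary operations on `A`. -/
lemma gen_inj {A B : Alg} (hB : B ∈ QuasiGen A) (w : ℕ → B.carrier) (k : ℕ) (hk : 0 < k) :
    ∃ f : (gen B fun i => w (i % k)).carrier → ((Fin k → A.carrier) → A.carrier),
      Function.Injective f := by
  choose τ hτ using fun x : (gen B fun i => w (i % k)).carrier => x.2
  refine ⟨fun x a => (τ x).eval A fun i => a ⟨i % k, Nat.mod_lt _ hk⟩, ?_⟩
  intro x y hxy
  apply Subtype.ext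
  have hA : SatId A ((τ x).rename (· % k), (τ y).rename (· % k)) := by
    intro u
    simp only [eval_rename]
    exact congrFun hxy fun j => u j.val
  have hB' : SatId B ((τ x).rename (· % k), (τ y).rename (· % k)) := by
    rw [satId_iff] at hA ⊢
    exact hB _ hA
  have := hB' w
  simp only [eval_rename] at this
  rw [← hτ x, ← hτ y]
  exact this

/-- Direct products. -/
def prodAlg {ι : Type} (B : ι → Alg) : Alg where
  carrier := ∀ i, (B i).carrier
  meet x y := fun i => (B i).meet (x i) (y i)
  join x y := fun i => (B i).join (x i) (y i)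
  imp x y := fun i => (B i).imp (x i) (y i)
  zero := fun i => (B i).zero
  one := fun i => (B i).one

lemma prod_hom {ι : Type} (B : ι → Alg) (i : ι) : IsHom (prodAlg B) (B i) fun x => x i :=
  ⟨fun _ _ => rfl, fun _ _ => rfl, fun _ _ => rfl, rfl, rfl⟩

lemma prod_satQ {ι : Type} (B : ι → Alg) {q : List (Term × Term) × (Term × Term)}
    (h : ∀ i, SatQ (B i) q) : SatQ (prodAlg B) q := by
  intro w hw
  funext i
  have e1 := (prod_hom B i).eval w q.2.1
  have e2 := (prod_hom B i).eval w q.2.2
  refine e1.trans ((h i _ ?_).trans e2.symm)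
  intro e he
  rw [← (prod_hom B i).eval, ← (prod_hom B i).eval, hw e he]

/-- A generic point: a member of the class with a valuation at which only the identities of the
class hold. -/
lemma exists_generic (T : Set (List (Term × Term) × (Term × Term))) :
    ∃ (P : Alg) (W : ℕ → P.carrier), (∀ q ∈ T, SatQ P q) ∧
      ∀ s t : Term, s.eval P W = t.eval P W → ∀ B : Alg, (∀ q ∈ T, SatQ B q) → SatId B (s, t) := by
  let ι : Type := {e : Term × Term // ¬ ∀ B : Alg, (∀ q ∈ T, SatQ B q) → SatId B e}
  have key : ∀ e : ι, ∃ (B : Alg) (w : ℕ → B.carrier), (∀ q ∈ T, SatQ B q) ∧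
      e.1.1.eval B w ≠ e.1.2.eval B w := by
    intro e
    have h := e.2
    simp only [SatId, not_forall] at h
    obtain ⟨B, hB, w, hw⟩ := h
    exact ⟨B, w, hB, hw⟩
  choose B w hB hw using key
  refine ⟨prodAlg B, fun n e => w e n, fun q hq => prod_satQ B fun e => hB e q hq, ?_⟩
  intro s t hst
  by_contra hcon
  apply hw ⟨(s, t), hcon⟩
  have e1 := (prod_hom B ⟨(s, t), hcon⟩).eval (fun n e => w e n) s
  have e2 := (prod_hom B ⟨(s, t), hcon⟩).eval (fun n e => w e n) t
  refine e1.symm.trans (Eq.trans ?_ e2)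
  exact congrFun hst _

/-- The finite criterion. -/
def Crit (A : Alg) (n : ℕ) : Prop :=
  ∀ (B C : Alg) [Finite B.carrier] [Finite C.carrier],
    Nat.card B.carrier ≤ n ^ (n ^ n) → Nat.card C.carrier ≤ n →
    Sep B A → Sep C A → Onto B C → Sep C B

theorem crit_of_primitive {A : Alg} (n : ℕ) (h : Primitive (QuasiGen A)) : Crit A n := by
  intro B C _ _ _ _ hB hC hBC
  obtain ⟨V, ⟨E, rfl⟩, hV⟩ := h (QuasiGen B) ⟨{q | SatQ B q}, rfl⟩
    (fun D hD q hq => hD q (hB.satQ hq))
  have hBB : B ∈ QuasiGen B := fun _ hq => hq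
  rw [hV] at hBB
  have hCB : C ∈ QuasiGen B := by
    rw [hV]
    exact ⟨fun q hq => hC.satQ hq, fun e he => hBC.satId (hBB.2 e he)⟩
  exact sep_of_mem hCB

theorem primitive_of_crit {A : Alg} {n : ℕ} (e : Fin n ≃ A.carrier) (h : Crit A n) :
    Primitive (QuasiGen A) := by
  have : Finite A.carrier := Finite.of_equiv _ e
  have hn : 0 < n := Fin.pos (e.symm A.zero)
  have hcard : Nat.card A.carrier = n := by rw [← Nat.card_congr e]; simp
  rintro _ ⟨T, rfl⟩ hT
  refine ⟨{B | ∀ p ∈ {p : Term × Term | ∀ B : Alg, (∀ q ∈ T, SatQ B q) → SatId B p}, SatId B p},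
    ⟨_, rfl⟩, ?_⟩
  apply Set.Subset.antisymm
  · intro D hD
    exact ⟨hT hD, fun p hp => hp D hD⟩
  rintro D ⟨hDA, hDE⟩ q hq w hw
  by_contra hne
  obtain ⟨k, hk⟩ := exists_bound (q.2 :: q.1)
  let w' : ℕ → D.carrier := fun i => w (i % (k + 1))
  have hww : ∀ t : Term, t.bound ≤ k → t.eval D w' = t.eval D w := by
    intro t ht
    apply eval_congr
    intro i hi
    simp only [w']
    rw [Nat.mod_eq_of_lt (by omega)]
  obtain ⟨f, hf⟩ := gen_inj hDA w (k + 1) (Nat.succ_pos k)
  have : Finite (gen D w').carrier := Finite.of_injective f hf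
  have hD'A : gen D w' ∈ QuasiGen A := fun p hp => (gen_sep D w').satQ (hDA p hp)
  have hne' : q.2.1.eval (gen D w') (genVal D w') ≠ q.2.2.eval (gen D w') (genVal D w') := by
    intro hh
    apply hne
    have := congrArg Subtype.val hh
    rw [gen_eval, gen_eval, hww _ (hk q.2 (by simp)).1, hww _ (hk q.2 (by simp)).2] at this
    exact this
  obtain ⟨g, hg, hgne⟩ := sep_of_mem hD'A _ _ hne'
  let u : ℕ → A.carrier := fun i => g (genVal D w' i)
  have hgu : ∀ s t : Term, s.eval D w' = t.eval D w' → s.eval A u = t.eval A u := by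
    intro s t hst
    rw [← hg.eval, ← hg.eval]
    congr 1
    apply Subtype.ext
    rw [gen_eval, gen_eval, hst]
  have hDC : Onto (gen D w') (gen A u) := onto_gen w' u hgu
  have : Finite (gen A u).carrier :=
    Finite.of_injective (Subtype.val : (gen A u).carrier → A.carrier) Subtype.val_injective
  have hCcard : Nat.card (gen A u).carrier ≤ n := by
    rw [← hcard]
    exact Nat.card_le_card_of_injective (Subtype.val : (gen A u).carrier → A.carrier)
      Subtype.val_injective
  have hCE : ∀ p : Term × Term, (∀ B : Alg, (∀ q ∈ T, SatQ B q) → SatId B p) →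
      SatId (gen A u) p := fun p hp => hDC.satId ((gen_sep D w').satId (hDE p hp))
  suffices hC : SatQ (gen A u) q by
    apply hgne
    rw [hg.eval, hg.eval]
    have := hC (genVal A u) ?_
    · have h2 := congrArg Subtype.val this
      rw [gen_eval, gen_eval] at h2
      exact h2
    · intro p hp
      apply Subtype.ext
      rw [gen_eval, gen_eval]
      apply hgu
      rw [hww _ (hk p (by simp [hp])).1, hww _ (hk p (by simp [hp])).2]
      exact hw p hp
  obtain ⟨P, W, hP, hW⟩ := exists_generic T
  classical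
  let c : ℕ → (gen A u).carrier := fun i =>
    if hi : i < n then
      (if hc : ∃ t : Term, t.eval A u = e ⟨i, hi⟩ then ⟨e ⟨i, hi⟩, hc⟩ else (gen A u).zero)
    else (gen A u).zero
  have hc : ∀ x : (gen A u).carrier, ∃ i, c (i % n) = x := by
    intro x
    refine ⟨(e.symm x.1).val, ?_⟩
    have h1 : (e.symm x.1).val % n = (e.symm x.1).val := Nat.mod_eq_of_lt (e.symm x.1).2
    rw [h1]
    have h2 : ∃ t : Term, t.eval A u = e ⟨(e.symm x.1).val, (e.symm x.1).2⟩ := by
      simpa using x.2
    simp only [c, (e.symm x.1).2, dif_pos, h2]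
    apply Subtype.ext
    simp
  have hPA : P ∈ QuasiGen A := hT hP
  obtain ⟨f', hf'⟩ := gen_inj hPA W n hn
  have : Finite (gen P fun i => W (i % n)).carrier := Finite.of_injective f' hf'
  have hBcard : Nat.card (gen P fun i => W (i % n)).carrier ≤ n ^ (n ^ n) := by
    have := Nat.card_le_card_of_injective f' hf'
    simpa [Nat.card_fun, hcard] using this
  have hBA : Sep (gen P fun i => W (i % n)) A :=
    sep_of_mem fun p hp => (gen_sep P _).satQ (hPA p hp)
  have hO1 : Onto (gen P fun i => W (i % n)) (gen (gen A u) fun i => c (i % n)) := by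
    apply onto_gen
    intro s t hst
    rw [← eval_rename P W (· % n), ← eval_rename P W (· % n)] at hst
    have := hCE (_, _) (hW _ _ hst) c
    simpa only [eval_rename] using this
  have hO : Onto (gen P fun i => W (i % n)) (gen A u) := by
    obtain ⟨φ, hφ, hs⟩ := hO1
    have hv := gen_hom (gen A u) fun i => c (i % n)
    refine ⟨fun x => (φ x).1, ⟨?_, ?_, ?_, ?_, ?_⟩, ?_⟩
    · intro x y; rw [hφ.meet, hv.meet]
    · intro x y; rw [hφ.join, hv.join]
    · intro x y; rw [hφ.imp, hv.imp]
    · rw [hφ.zero, hv.zero]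
    · rw [hφ.one, hv.one]
    · intro x
      obtain ⟨i, hi⟩ := hc x
      obtain ⟨y, hy⟩ := hs ⟨x, .var i, hi⟩
      exact ⟨y, by simp only [hy]⟩
  have hsep := h _ _ hBcard hCcard hBA (gen_sep A u) hO
  exact hsep.satQ ((gen_sep P _).satQ (hP q hq))

theorem primitive_iff_crit {A : Alg} {n : ℕ} (e : Fin n ≃ A.carrier) :
    Primitive (QuasiGen A) ↔ Crit A n :=
  ⟨crit_of_primitive n, primitive_of_crit e⟩

end Pool.Agent.P.MP_51e3d2_lc
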