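import Mathlib
import Pool.Agent.P.MP_51e3d2_lc.Univ
import Pool.Agent.P.MP_51e3d2_lc.SqDefs

/-!
Primitivity of the quasivariety generated by a finite algebra is decided by the subalgebras of
the square.
-/

set_option autoImplicit false

namespace Pool.Agent.P.MP_51e3d2_lc

lemma IsHom.comp {B C D : Alg} {f : B.carrier → C.carrier} {g : C.carrier → D.carrier}
    (hg : IsHom C D g) (hf : IsHom B C f) : IsHom B D fun x => g (f x) :=
  ⟨fun x y => by rw [hf.meet, hg.meet], fun x y => by rw [hf.join, hg.join],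
    fun x y => by rw [hf.imp, hg.imp], by rw [hf.zero, hg.zero], by rw [hf.one, hg.one]⟩

lemma sub_hom (B : Alg) (S : Set B.carrier) (h : Closed B S) :
    IsHom (B.sub S h) B Subtype.val :=
  ⟨fun _ _ => rfl, fun _ _ => rfl, fun _ _ => rfl, rfl, rfl⟩

lemma fst_hom (A : Alg) : IsHom A.sq A Prod.fst :=
  ⟨fun _ _ => rfl, fun _ _ => rfl, fun _ _ => rfl, rfl, rfl⟩

lemma snd_hom (A : Alg) : IsHom A.sq A Prod.snd :=
  ⟨fun _ _ => rfl, fun _ _ => rfl, fun _ _ => rfl, rfl, rfl⟩

lemma IsHom.pair {B A : Alg} {f g : B.carrier → A.carrier} (hf : IsHom B A f)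
    (hg : IsHom B A g) : IsHom B A.sq fun x => (f x, g x) :=
  ⟨fun x y => Prod.ext (hf.meet x y) (hg.meet x y),
    fun x y => Prod.ext (hf.join x y) (hg.join x y),
    fun x y => Prod.ext (hf.imp x y) (hg.imp x y), Prod.ext hf.zero hg.zero,
    Prod.ext hf.one hg.one⟩

lemma Closed.image {B C : Alg} {S : Set B.carrier} (h : Closed B S) {f : B.carrier → C.carrier}
    (hf : IsHom B C f) : Closed C (f '' S) := by
  refine ⟨?_, ⟨_, h.2.1, hf.zero⟩, ⟨_, h.2.2, hf.one⟩⟩
  rintro _ ⟨x, hx, rfl⟩ _ ⟨y, hy, rfl⟩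
  exact ⟨⟨_, (h.1 x hx y hy).1, hf.meet x y⟩, ⟨_, (h.1 x hx y hy).2.1, hf.join x y⟩,
    ⟨_, (h.1 x hx y hy).2.2, hf.imp x y⟩⟩

lemma Closed.preimage {B C : Alg} {S : Set C.carrier} (h : Closed C S)
    {f : B.carrier → C.carrier} (hf : IsHom B C f) : Closed B (f ⁻¹' S) := by
  refine ⟨fun x hx y hy => ?_, ?_, ?_⟩
  · simp only [Set.mem_preimage, hf.meet, hf.join, hf.imp]
    exact h.1 _ hx _ hy
  · simpa only [Set.mem_preimage, hf.zero] using h.2.1
  · simpa only [Set.mem_preimage, hf.one] using h.2.2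

lemma closed_univ (B : Alg) : Closed B Set.univ :=
  ⟨fun _ _ _ _ => ⟨trivial, trivial, trivial⟩, trivial, trivial⟩

lemma IsHom.closed_range {B C : Alg} {f : B.carrier → C.carrier} (hf : IsHom B C f) :
    Closed C (Set.range f) := by
  rw [← Set.image_univ]
  exact (closed_univ B).image hf

lemma IsHom.restrict {B C : Alg} {f : B.carrier → C.carrier} (hf : IsHom B C f)
    {S : Set C.carrier} (h : Closed C S) (hS : ∀ x, f x ∈ S) :
    IsHom B (C.sub S h) fun x => ⟨f x, hS x⟩ :=
  ⟨fun x y => Subtype.ext (hf.meet x y), fun x y => Subtype.ext (hf.join x y),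
    fun x y => Subtype.ext (hf.imp x y), Subtype.ext hf.zero, Subtype.ext hf.one⟩

/-- A map `k` with `j (k x) = f x`, for an injective homomorphism `j`, is a homomorphism. -/
lemma IsHom.lift {B C D : Alg} {f : B.carrier → D.carrier} {j : C.carrier → D.carrier}
    (hf : IsHom B D f) (hj : IsHom C D j) (hi : Function.Injective j) {k : B.carrier → C.carrier}
    (hk : ∀ x, j (k x) = f x) : IsHom B C k :=
  ⟨fun x y => hi (by rw [hj.meet, hk, hk, hk, hf.meet]),
    fun x y => hi (by rw [hj.join, hk, hk, hk, hf.join]),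
    fun x y => hi (by rw [hj.imp, hk, hk, hk, hf.imp]),
    hi (by rw [hj.zero, hk, hf.zero]), hi (by rw [hj.one, hk, hf.one])⟩

lemma Sep.trans {B C D : Alg} (h : Sep B C) (h' : Sep C D) : Sep B D := by
  intro x y hxy
  obtain ⟨f, hf, h1⟩ := h x y hxy
  obtain ⟨g, hg, h2⟩ := h' _ _ h1
  exact ⟨_, hg.comp hf, h2⟩

lemma sq_sep (A : Alg) : Sep A.sq A := by
  intro x y hxy
  by_cases h : x.1 = y.1
  · exact ⟨_, snd_hom A, fun h' => hxy (Prod.ext h h')⟩
  · exact ⟨_, fst_hom A, h⟩

lemma sub_sep (B : Alg) (S : Set B.carrier) (h : Closed B S) : Sep (B.sub S h) B :=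
  sep_of_injective (sub_hom B S h) Subtype.val_injective

/-- The criterion of the square. -/
def Crit2 (A : Alg) : Prop :=
  ∀ (S : Set A.sq.carrier) (h : Closed A.sq S),
    Sep (A.sub (Prod.fst '' S) (h.image (fst_hom A))) (A.sq.sub S h)

/-- The irreducible case: `C` embeds into every member that maps onto it. -/
lemma embeds_of_crit2 {A C : Alg} [Finite A.carrier] [Finite C.carrier] (hA : Crit2 A)
    {x₀ y₀ : C.carrier} (hne : x₀ ≠ y₀)
    (hirr : ∀ g : C.carrier → A.carrier, IsHom C A g → g x₀ ≠ g y₀ → Function.Injective g)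
    {e : C.carrier → A.carrier} (he : IsHom C A e) (hei : Function.Injective e) (m : ℕ) :
    ∀ (B : Alg) [Finite B.carrier], Nat.card B.carrier = m → Sep B A → Onto B C →
      ∃ j : C.carrier → B.carrier, IsHom C B j ∧ Function.Injective j := by
  induction m using Nat.strong_induction_on with
  | _ m ih =>
  intro B _ hm hB ⟨h, hh, hs⟩
  by_cases hinj : Function.Injective h
  · let E := Equiv.ofBijective h ⟨hinj, hs⟩
    refine ⟨E.symm, IsHom.lift (f := fun x => x) ⟨fun _ _ => rfl, fun _ _ => rfl, fun _ _ => rfl,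
      rfl, rfl⟩ hh hinj fun x => E.apply_symm_apply x, E.symm.injective⟩
  obtain ⟨u, v, huv, hne'⟩ : ∃ u v, h u = h v ∧ u ≠ v := by
    simpa only [Function.Injective, not_forall, exists_prop] using hinj
  obtain ⟨p, hp, hpuv⟩ := hB u v hne'
  have hφ : IsHom B A.sq fun b => (e (h b), p b) := (he.comp hh).pair hp
  have hW := hφ.closed_range
  have hmem : ∀ c, e c ∈ Prod.fst '' Set.range fun b => (e (h b), p b) := by
    intro c
    obtain ⟨b, rfl⟩ := hs c
    exact ⟨_, ⟨b, rfl⟩, rfl⟩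
  have he' := he.restrict (hW.image (fst_hom A)) hmem
  obtain ⟨g, hg, hg0⟩ := hA _ hW ⟨e x₀, hmem x₀⟩ ⟨e y₀, hmem y₀⟩
    fun h' => hne (hei (congrArg Subtype.val h'))
  have hj := (sub_hom _ _ hW).comp (hg.comp he')
  set j : C.carrier → A.sq.carrier := fun c => (g ⟨e c, hmem c⟩).1 with hjdef
  have hjW : ∀ c, j c ∈ Set.range fun b => (e (h b), p b) := fun c => (g ⟨e c, hmem c⟩).2
  have hji : Function.Injective j := by
    obtain ⟨r, hr, hr0⟩ := sq_sep A (j x₀) (j y₀) fun h' => hg0 (Subtype.ext h')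
    exact Function.Injective.of_comp (hirr _ (hr.comp hj) hr0)
  have hP := hj.closed_range.preimage hφ
  have hproper : ∃ b, b ∉ (fun b => (e (h b), p b)) ⁻¹' Set.range j := by
    by_contra hcon
    simp only [not_exists, not_not, Set.mem_preimage] at hcon
    choose k hk using hcon
    have h1 : ∀ c, ∃ d, e d = (j c).1 := by
      intro c
      obtain ⟨b, hb⟩ := hjW c
      exact ⟨h b, congrArg Prod.fst hb⟩
    choose r hr using h1
    have hrs : Function.Surjective r := by
      intro d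
      obtain ⟨b, rfl⟩ := hs d
      exact ⟨k b, hei (by rw [hr, hk])⟩
    have hri : Function.Injective r := Finite.injective_iff_surjective.2 hrs
    have hk' : k u = k v := hri (hei (by rw [hr, hr, hk, hk, huv]))
    apply hpuv
    have := hk u
    rw [hk', hk v] at this
    exact (congrArg Prod.snd this).symm
  obtain ⟨b₀, hb₀⟩ := hproper
  have hfin : Finite (B.sub _ hP).carrier := Subtype.finite
  have hlt : Nat.card (B.sub _ hP).carrier < m := by
    rw [← hm]
    exact Finite.card_subtype_lt (p := fun b => b ∈ _) hb₀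
  have hk : ∀ b : (B.sub _ hP).carrier, ∃ c, j c = (e (h b.1), p b.1) := fun b => b.2
  choose k hk using hk
  have hkh : IsHom (B.sub _ hP) C k := IsHom.lift (hφ.comp (sub_hom _ _ hP)) hj hji hk
  have hks : Function.Surjective k := by
    intro c
    obtain ⟨b, hb⟩ := hjW c
    exact ⟨⟨b, c, hb.symm⟩, hji ((hk _).trans hb)⟩
  obtain ⟨i, hi, hii⟩ := ih _ hlt (B.sub _ hP) rfl ((sub_sep _ _ hP).trans hB) ⟨k, hkh, hks⟩
  exact ⟨_, (sub_hom _ _ hP).comp hi, Subtype.val_injective.comp hii⟩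

lemma sep_of_crit2 {A : Alg} [Finite A.carrier] (hA : Crit2 A) (m : ℕ) :
    ∀ (B C : Alg) [Finite B.carrier] [Finite C.carrier], Nat.card C.carrier = m →
      Sep B A → Sep C A → Onto B C → Sep C B := by
  induction m using Nat.strong_induction_on with
  | _ m ih =>
  intro B C _ _ hm hB hC hBC x y hxy
  by_cases hirr : ∀ g : C.carrier → A.carrier, IsHom C A g → g x ≠ g y → Function.Injective g
  · obtain ⟨e, he, hexy⟩ := hC x y hxy
    obtain ⟨j, hj, hji⟩ := embeds_of_crit2 hA hxy hirr he (hirr e he hexy) _ B rfl hB hBC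
    exact ⟨j, hj, fun h => hxy (hji h)⟩
  simp only [not_forall] at hirr
  obtain ⟨g, hg, hgxy, hgi⟩ := hirr
  have hR := hg.closed_range
  have hfin : Finite (A.sub _ hR).carrier := Subtype.finite
  have hg' := hg.restrict hR fun c => ⟨c, rfl⟩
  have hgs : Function.Surjective fun c => (⟨g c, c, rfl⟩ : (A.sub _ hR).carrier) := by
    rintro ⟨_, c, rfl⟩
    exact ⟨c, rfl⟩
  have hlt : Nat.card (A.sub _ hR).carrier < m := by
    rw [← hm]
    refine lt_of_le_of_ne (Nat.card_le_card_of_surjective _ hgs) fun hc => hgi ?_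
    have hb := (Nat.bijective_iff_surjective_and_card _).2 ⟨hgs, hc.symm⟩
    exact fun a b hab => hb.1 (Subtype.ext hab)
  obtain ⟨h, hh, hs⟩ := hBC
  obtain ⟨k, hk, hkxy⟩ := ih _ hlt B (A.sub _ hR) rfl hB (sub_sep _ _ hR)
    ⟨_, hg'.comp hh, hgs.comp hs⟩ ⟨g x, x, rfl⟩ ⟨g y, y, rfl⟩
    fun h' => hgxy (congrArg Subtype.val h')
  exact ⟨_, hk.comp hg', hkxy⟩

/-- In a primitive quasivariety, finite members that are images are separated. -/
lemma sep_of_primitive {A B C : Alg} [Finite B.carrier] [Finite C.carrier]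
    (h : Primitive (QuasiGen A)) (hB : Sep B A) (hC : Sep C A) (hBC : Onto B C) : Sep C B := by
  obtain ⟨V, ⟨E, rfl⟩, hV⟩ := h (QuasiGen B) ⟨{q | SatQ B q}, rfl⟩
    (fun D hD q hq => hD q (hB.satQ hq))
  have hBB : B ∈ QuasiGen B := fun _ hq => hq
  rw [hV] at hBB
  have hCB : C ∈ QuasiGen B := by
    rw [hV]
    exact ⟨fun q hq => hC.satQ hq, fun e he => hBC.satId (hBB.2 e he)⟩
  exact sep_of_mem hCB

theorem primitive_iff_crit2 {A : Alg} [Finite A.carrier] :
    Primitive (QuasiGen A) ↔ Crit2 A := by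
  constructor
  · intro h S hS
    have : Finite A.sq.carrier := inferInstanceAs (Finite (A.carrier × A.carrier))
    have : Finite (A.sq.sub S hS).carrier := Subtype.finite
    have hS' : Closed A (Prod.fst '' S) := hS.image (fst_hom A)
    have : Finite (A.sub _ hS').carrier := Subtype.finite
    refine sep_of_primitive h ((sub_sep _ _ hS).trans (sq_sep A)) (sub_sep _ _ hS')
      ⟨_, ((fst_hom A).comp (sub_hom _ _ hS)).restrict hS' fun x => ⟨x.1, x.2, rfl⟩, ?_⟩
    rintro ⟨_, x, hx, rfl⟩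
    exact ⟨⟨x, hx⟩, rfl⟩
  · intro h
    obtain ⟨n, ⟨e⟩⟩ := Finite.exists_equiv_fin A.carrier
    exact primitive_of_crit e.symm fun B C _ _ _ _ => sep_of_crit2 h _ B C rfl

theorem primitive_iff_sq {A : Alg} [Finite A.carrier] :
    Primitive (QuasiGen A) ↔ ∀ (S : Set A.sq.carrier) (h : Closed A.sq S)
      (h' : Closed A (Prod.fst '' S)), A.sub (Prod.fst '' S) h' ∈ QuasiGen (A.sq.sub S h) := by
  rw [primitive_iff_crit2]
  refine forall₂_congr fun S hS => ⟨fun h _ q hq => h.satQ hq, fun h => ?_⟩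
  have hS' : Closed A (Prod.fst '' S) := hS.image (fst_hom A)
  have : Finite (A.sub _ hS').carrier := Subtype.finite
  exact sep_of_mem (h hS')

end Pool.Agent.P.MP_51e3d2_lc
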