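import Mathlib
import Pool.Agent.P.MP_51e3d2_lc.Sq

/-!
Finite duality: algebras of lower sets and bounded morphisms.
-/

set_option autoImplicit false

namespace Pool.Agent.P.MP_51e3d2_lc

variable {P Q R : Type} [PartialOrder P] [PartialOrder Q] [PartialOrder R]

/-- Bounded morphisms: the image of a principal lower set is the principal lower set. -/
def PM (f : P → Q) : Prop := ∀ x q, q ≤ f x ↔ ∃ y, y ≤ x ∧ f y = q

lemma PM.mono {f : P → Q} (hf : PM f) {x y : P} (h : x ≤ y) : f x ≤ f y :=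
  (hf y _).2 ⟨x, h, rfl⟩

lemma PM.comp {f : P → Q} {g : Q → R} (hg : PM g) (hf : PM f) : PM fun x => g (f x) := by
  intro x r
  rw [hg]
  constructor
  · rintro ⟨q, hq, rfl⟩
    obtain ⟨y, hy, rfl⟩ := (hf x q).1 hq
    exact ⟨y, hy, rfl⟩
  · rintro ⟨y, hy, rfl⟩
    exact ⟨f y, hf.mono hy, rfl⟩

lemma PM.isMin {f : P → Q} (hf : PM f) {x : P} (h : IsMin x) : IsMin (f x) := by
  intro q hq
  obtain ⟨y, hy, rfl⟩ := (hf x q).1 hq
  exact hf.mono (h hy)

/-- The algebra of lower sets. -/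
abbrev L (P : Type) [PartialOrder P] : Alg := ofHeyting (LowerSet P)

lemma low_ext {U V : LowerSet P} (h : ∀ x, x ∈ U ↔ x ∈ V) : U = V := SetLike.ext h

lemma mem_himp {U V : LowerSet P} {x : P} : x ∈ U ⇨ V ↔ ∀ y, y ≤ x → y ∈ U → y ∈ V := by
  rw [← LowerSet.Iic_le, le_himp_iff]
  exact ⟨fun h y hy hU => h ⟨hy, hU⟩, fun h y hy => h y hy.1 hy.2⟩

/-- Preimage of a lower set. -/
def pull {f : P → Q} (hf : PM f) (U : LowerSet Q) : LowerSet P :=
  ⟨f ⁻¹' U, fun _ _ h hx => U.lower (hf.mono h) hx⟩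

lemma mem_pull {f : P → Q} (hf : PM f) {U : LowerSet Q} {x : P} : x ∈ pull hf U ↔ f x ∈ U :=
  Iff.rfl

lemma pull_hom {f : P → Q} (hf : PM f) : IsHom (L Q) (L P) (pull hf) := by
  refine ⟨fun _ _ => rfl, fun _ _ => rfl, fun U V : LowerSet Q => ?_, rfl, rfl⟩
  refine low_ext fun x => ?_
  change f x ∈ U ⇨ V ↔ x ∈ pull hf U ⇨ pull hf V
  simp only [mem_himp, mem_pull]
  constructor
  · exact fun h y hy => h _ (hf.mono hy)
  · intro h q hq
    obtain ⟨y, hy, rfl⟩ := (hf x q).1 hq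
    exact h y hy

lemma exists_pm [Finite Q] {h : LowerSet Q → LowerSet P} (hh : IsHom (L Q) (L P) h) :
    ∃ f : P → Q, PM f ∧ ∀ U x, x ∈ h U ↔ f x ∈ U := by
  classical
  have : Fintype Q := Fintype.ofFinite _
  have : Fintype (LowerSet Q) := Fintype.ofFinite _
  have hm : ∀ U V, h (U ⊓ V) = h U ⊓ h V := hh.meet
  have hj : ∀ U V, h (U ⊔ V) = h U ⊔ h V := hh.join
  have hi : ∀ U V, h (U ⇨ V) = h U ⇨ h V := hh.imp
  have h0 : h ⊥ = ⊥ := hh.zero
  have h1 : h ⊤ = ⊤ := hh.one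
  have hinf : ∀ (s : Finset (LowerSet Q)) (x : P), (∀ U ∈ s, x ∈ h U) → x ∈ h (s.inf id) := by
    intro s x
    induction s using Finset.induction_on with
    | empty => simp [h1]
    | insert U s _ ih =>
      intro H
      rw [Finset.inf_insert, hm]
      exact ⟨H U (by simp), ih fun V hV => H V (by simp [hV])⟩
  have hsup : ∀ (s : Finset Q) (x : P), x ∈ h (s.sup LowerSet.Iic) →
      ∃ z ∈ s, x ∈ h (LowerSet.Iic z) := by
    intro s x
    induction s using Finset.induction_on with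
    | empty => simp [h0]
    | insert z s _ ih =>
      rw [Finset.sup_insert, hj]
      rintro (H | H)
      · exact ⟨z, by simp, H⟩
      · obtain ⟨w, hw, H⟩ := ih H
        exact ⟨w, by simp [hw], H⟩
  have key : ∀ x : P, ∃ z : Q, ∀ U, x ∈ h U ↔ z ∈ U := by
    intro x
    set m := (Finset.univ.filter fun U => x ∈ h U).inf id with hmdef
    have hx : x ∈ h m := hinf _ x fun U hU => (Finset.mem_filter.1 hU).2
    have hm' : m = (Finset.univ.filter fun z => z ∈ m).sup LowerSet.Iic := by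
      apply le_antisymm
      · intro z hz
        exact Finset.le_sup (f := LowerSet.Iic) (Finset.mem_filter.2 ⟨Finset.mem_univ z, hz⟩)
          (le_refl z)
      · exact Finset.sup_le fun z hz => LowerSet.Iic_le.2 (Finset.mem_filter.1 hz).2
    rw [hm'] at hx
    obtain ⟨z, hz, hxz⟩ := hsup _ x hx
    refine ⟨z, fun U => ⟨fun hU => ?_, fun hU => ?_⟩⟩
    · have : m ≤ U := Finset.inf_le (f := id) (Finset.mem_filter.2 ⟨Finset.mem_univ U, hU⟩)
      exact this (Finset.mem_filter.1 hz).2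
    · have e : LowerSet.Iic z ⊓ U = LowerSet.Iic z := inf_eq_left.2 (LowerSet.Iic_le.2 hU)
      rw [← e, hm] at hxz
      exact hxz.2
  choose f hf using key
  refine ⟨f, fun x q => ⟨fun hq => ?_, ?_⟩, fun U x => hf x U⟩
  · have : x ∉ h (LowerSet.Iic q ⇨ LowerSet.Iio q) := by
      rw [hf, mem_himp]
      exact fun H => lt_irrefl q (H q hq (le_refl q))
    rw [hi, mem_himp] at this
    simp only [not_forall, hf] at this
    obtain ⟨y, hy, h2, h3⟩ := this
    exact ⟨y, hy, eq_of_le_of_not_lt h2 h3⟩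
  · rintro ⟨y, hy, rfl⟩
    exact (hf y (LowerSet.Iic (f x))).1 ((h _).lower hy ((hf x _).2 (le_refl (f x))))

lemma sep_of_cover (h : ∀ q, ∃ f : P → Q, PM f ∧ ∃ x, f x = q) : Sep (L Q) (L P) := by
  intro (U : LowerSet Q) (V : LowerSet Q) hUV
  by_contra hcon
  refine hUV (low_ext fun q => ?_)
  obtain ⟨f, hf, x, rfl⟩ := h q
  have : pull hf U = pull hf V := by
    by_contra hne
    exact hcon ⟨_, pull_hom hf, hne⟩
  rw [← mem_pull hf, ← mem_pull hf, this]

lemma cover_of_sep [Finite Q] (h : Sep (L Q) (L P)) (q : Q) :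
    ∃ f : P → Q, PM f ∧ ∃ x, f x = q := by
  obtain ⟨g, hg, hne⟩ := h (LowerSet.Iic q) (LowerSet.Iio q) fun e => by
    have : q ∈ LowerSet.Iio q := by
      rw [← (e : LowerSet.Iic q = LowerSet.Iio q)]
      exact le_refl q
    exact lt_irrefl q this
  obtain ⟨f, hf, hfg⟩ := exists_pm hg
  refine ⟨f, hf, ?_⟩
  by_contra hcon
  refine hne (low_ext fun x => ?_)
  rw [hfg, hfg]
  exact ⟨fun hx => lt_of_le_of_ne hx fun e => hcon ⟨x, e⟩, fun hx => le_of_lt hx⟩

lemma onto_of_injective {f : P → Q} (hf : PM f) (hi : Function.Injective f) :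
    Onto (L Q) (L P) := by
  refine ⟨_, pull_hom hf, fun U : LowerSet P => ⟨⟨f '' U, ?_⟩, ?_⟩⟩
  · rintro _ q hq ⟨x, hx, rfl⟩
    obtain ⟨y, hy, rfl⟩ := (hf x q).1 hq
    exact ⟨y, U.lower hy hx, rfl⟩
  · exact low_ext fun x => hi.mem_set_image

/-- The poset of join-irreducible elements. -/
abbrev J (A : Type) [HeytingAlgebra A] : Type := {a : A // SupIrred a}

lemma exists_rep (A : Type) [HeytingAlgebra A] [Finite A] :
    ∃ E : A ≃ LowerSet (J A), IsHom (ofHeyting A) (L (J A)) E ∧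
      IsHom (L (J A)) (ofHeyting A) E.symm ∧ ∀ a x, x ∈ E a ↔ x.1 ≤ a := by
  classical
  have : Fintype A := Fintype.ofFinite _
  let E : A ≃o LowerSet (J A) := OrderIso.lowerSetSupIrred
  have h1 : ∀ a b : A, E (a ⇨ b) = E a ⇨ E b := map_himp E
  have h2 : ∀ a b, E.symm (a ⇨ b) = E.symm a ⇨ E.symm b := map_himp E.symm
  exact ⟨E.toEquiv, ⟨E.map_inf, E.map_sup, h1, E.map_bot, E.map_top⟩,
    ⟨E.symm.map_inf, E.symm.map_sup, h2, E.symm.map_bot, E.symm.map_top⟩, fun _ _ => Iff.rfl⟩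

end Pool.Agent.P.MP_51e3d2_lc
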