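import Mathlib
import Pool.Agent.P.MP_51e3d2_lc.Defs

set_option autoImplicit false

namespace Pool.Agent.P.MP_51e3d2_lc

/-- The variety generated by `A`. -/
def VarGen (A : Alg) : Set Alg :=
  {B | ∀ e, SatId A e → SatId B e}

/-- Three conditions on a poset: no three pairwise incomparable points; if `a < d` and `b` is
incomparable with both, then `a` is minimal; two different minimal points are exactly the points
strictly below some point. -/
def Shape (P : Type) [PartialOrder P] : Prop :=
  (∀ p q r : P, p ≤ q ∨ q ≤ p ∨ p ≤ r ∨ r ≤ p ∨ q ≤ r ∨ r ≤ q) ∧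
  (∀ a d b : P, a < d → ¬ a ≤ b → ¬ b ≤ d → IsMin a) ∧
  (∀ s t : P, IsMin s → IsMin t → s ≠ t → ∃ c, ∀ p, p < c ↔ p = s ∨ p = t)

end Pool.Agent.P.MP_51e3d2_lc
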