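import Mathlib
import Pool.Agent.Lib.PolyTime.Parse
import Pool.Agent.P.MP_51e3d2_lc.Sq

/-!
The criterion of the square as a formula with one universal and one existential polynomially
bounded quantifier in front of a polynomial-time predicate.
-/

set_option autoImplicit false

namespace Pool.Agent.P.MP_51e3d2_lc

open Pool.Agent.Lib.PolyTime

/-- The check on a set `X` of elements with the operations `f 0, f 1, f 2`. -/
def Ver {X : Type} (D : X → Prop) (f : ℕ → X → X → X) (z o : X) (S : X → X → Prop)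
    (G : X → X → X → Prop) (a b : X) : Prop :=
  (∀ k, k < 3 → ∀ x, D x → ∀ y, D y → ∀ c, D c → ∀ d, D d → S x y → S c d →
    S (f k x c) (f k y d)) → S z z → S o o → a ≠ b → (∃ u, D u ∧ S a u) → (∃ u, D u ∧ S b u) →
  (∀ c, D c → (∃ u, D u ∧ S c u) → ∃ u, D u ∧ ∃ v, D v ∧ G c u v) ∧
  (∀ c, D c → ∀ u, D u → ∀ v, D v → G c u v → S u v) ∧
  (∀ c, D c → ∀ u, D u → ∀ v, D v → ∀ u', D u' → ∀ v', D v' → G c u v → G c u' v' →
    u = u' ∧ v = v') ∧
  (∀ k, k < 3 → ∀ c, D c → ∀ u, D u → ∀ v, D v → ∀ c', D c' → ∀ u', D u' → ∀ v', D v' →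
    G c u v → G c' u' v' → G (f k c c') (f k u u') (f k v v')) ∧
  G z z z ∧ G o o o ∧ ∀ u, D u → ∀ v, D v → ¬ (G a u v ∧ G b u v)

/-- The operation number `k`. -/
def Alg.op (A : Alg) (k : ℕ) : A.carrier → A.carrier → A.carrier :=
  if k = 0 then A.meet else if k = 1 then A.join else A.imp

lemma lt_three {p : ℕ → Prop} : (∀ k, k < 3 → p k) ↔ p 0 ∧ p 1 ∧ p 2 := by
  refine ⟨fun h => ⟨h 0 (by omega), h 1 (by omega), h 2 (by omega)⟩, fun h k hk => ?_⟩
  interval_cases k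
  exacts [h.1, h.2.1, h.2.2]

lemma crit2_iff_ver (A : Alg) : Crit2 A ↔ ∀ (S : A.carrier → A.carrier → Prop) (a b : A.carrier),
    ∃ G, Ver (fun _ => True) A.op A.zero A.one S G a b := by
  classical
  simp only [Ver, lt_three, Alg.op, true_and, forall_const, if_true, one_ne_zero, if_false,
    OfNat.ofNat_ne_zero, OfNat.ofNat_ne_one]
  constructor
  · intro h S a b
    by_cases hS : Closed A.sq {p | S p.1 p.2}
    swap
    · refine ⟨fun _ _ _ => True, fun h1 h2 h3 => (hS ⟨fun x hx y hy => ?_, h2, h3⟩).elim⟩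
      exact ⟨h1.1 _ _ _ _ hx hy, h1.2.1 _ _ _ _ hx hy, h1.2.2 _ _ _ _ hx hy⟩
    by_cases hab : a ≠ b ∧ (∃ u, S a u) ∧ ∃ u, S b u
    swap
    · exact ⟨fun _ _ _ => True, fun _ _ _ h1 h2 h3 => (hab ⟨h1, h2, h3⟩).elim⟩
    obtain ⟨hab, ⟨ua, ha⟩, ⟨ub, hb⟩⟩ := hab
    obtain ⟨g, hg, hne⟩ := h _ hS ⟨a, (a, ua), ha, rfl⟩ ⟨b, (b, ub), hb, rfl⟩
      fun h' => hab (congrArg Subtype.val h')
    refine ⟨fun c u v => ∃ hc, (g ⟨c, hc⟩).1 = (u, v), fun _ _ _ _ _ _ =>
      ⟨?_, ?_, ?_, ⟨?_, ?_, ?_⟩, ?_, ?_, ?_⟩⟩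
    · rintro c ⟨u, hu⟩
      exact ⟨_, _, ⟨(c, u), hu, rfl⟩, rfl⟩
    · rintro c u v ⟨hc, e⟩
      have := (g ⟨c, hc⟩).2
      rwa [e] at this
    · rintro c u v u' v' ⟨hc, e⟩ ⟨_, e'⟩
      exact Prod.mk.inj (e.symm.trans e')
    · rintro c u v c' u' v' ⟨hc, e⟩ ⟨hc', e'⟩
      refine ⟨_, (congrArg Subtype.val (hg.meet ⟨c, hc⟩ ⟨c', hc'⟩)).trans ?_⟩
      change A.sq.meet _ _ = _
      rw [e, e']
      rfl
    · rintro c u v c' u' v' ⟨hc, e⟩ ⟨hc', e'⟩
      refine ⟨_, (congrArg Subtype.val (hg.join ⟨c, hc⟩ ⟨c', hc'⟩)).trans ?_⟩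
      change A.sq.join _ _ = _
      rw [e, e']
      rfl
    · rintro c u v c' u' v' ⟨hc, e⟩ ⟨hc', e'⟩
      refine ⟨_, (congrArg Subtype.val (hg.imp ⟨c, hc⟩ ⟨c', hc'⟩)).trans ?_⟩
      change A.sq.imp _ _ = _
      rw [e, e']
      rfl
    · exact ⟨_, congrArg Subtype.val hg.zero⟩
    · exact ⟨_, congrArg Subtype.val hg.one⟩
    · rintro u v ⟨⟨_, e⟩, ⟨_, e'⟩⟩
      exact hne (Subtype.ext (e.trans e'.symm))
  · rintro h S hS ⟨a, ha⟩ ⟨b, hb⟩ hab
    obtain ⟨G, hG⟩ := h (fun x y => (x, y) ∈ S) a b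
    have hex : ∀ c, c ∈ Prod.fst '' S → ∃ u, (c, u) ∈ S := by
      rintro _ ⟨p, hp, rfl⟩
      exact ⟨p.2, hp⟩
    obtain ⟨h1, h2, h3, ⟨h4, h5, h6⟩, h7, h8, h9⟩ := hG
      ⟨fun _ _ _ _ hx hy => (hS.1 _ hx _ hy).1, fun _ _ _ _ hx hy => (hS.1 _ hx _ hy).2.1,
        fun _ _ _ _ hx hy => (hS.1 _ hx _ hy).2.2⟩ hS.2.1 hS.2.2
      (fun h' => hab (Subtype.ext h')) (hex a ha) (hex b hb)
    choose u v huv using fun c : (A.sub _ (hS.image (fst_hom A))).carrier => h1 c.1 (hex c.1 c.2)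
    have key : ∀ c x y, G c.1 x y → (u c, v c) = (x, y) := fun c x y hxy =>
      Prod.ext (h3 _ _ _ _ _ (huv c) hxy).1 (h3 _ _ _ _ _ (huv c) hxy).2
    refine ⟨fun c => ⟨(u c, v c), h2 _ _ _ (huv c)⟩, ⟨fun x y => Subtype.ext ?_,
      fun x y => Subtype.ext ?_, fun x y => Subtype.ext ?_, Subtype.ext ?_, Subtype.ext ?_⟩,
      fun h' => ?_⟩
    · exact key _ _ _ (h4 _ _ _ _ _ _ (huv x) (huv y))
    · exact key _ _ _ (h5 _ _ _ _ _ _ (huv x) (huv y))
    · exact key _ _ _ (h6 _ _ _ _ _ _ (huv x) (huv y))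
    · exact key _ _ _ h7
    · exact key _ _ _ h8
    · have e : u ⟨a, ha⟩ = u ⟨b, hb⟩ ∧ v ⟨a, ha⟩ = v ⟨b, hb⟩ :=
        Prod.mk.inj (congrArg Subtype.val h')
      refine h9 _ _ ⟨huv ⟨a, ha⟩, ?_⟩
      rw [e.1, e.2]
      exact huv ⟨b, hb⟩

/-- Transfer of the check along a numbering. -/
lemma ver_num {X : Type} {n : ℕ} (e : Fin n ≃ X) {f : ℕ → X → X → X} {F : ℕ → ℕ → ℕ → ℕ}
    (hF : ∀ k x y, F k (e.symm x).val (e.symm y).val = (e.symm (f k x y)).val) (z o a b : X)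
    (S : ℕ → ℕ → Prop) (G : ℕ → ℕ → ℕ → Prop) :
    Ver (· < n) F (e.symm z).val (e.symm o).val S G (e.symm a).val (e.symm b).val ↔
      Ver (fun _ => True) f z o (fun x y => S (e.symm x).val (e.symm y).val)
        (fun c u v => G (e.symm c).val (e.symm u).val (e.symm v).val) a b := by
  have hall : ∀ p : ℕ → Prop, (∀ i, i < n → p i) ↔ ∀ x, p (e.symm x).val := fun p =>
    ⟨fun h x => h _ (e.symm x).2, fun h i hi => by simpa using h (e ⟨i, hi⟩)⟩
  have hex : ∀ p : ℕ → Prop, (∃ i, i < n ∧ p i) ↔ ∃ x, p (e.symm x).val := fun p =>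
    ⟨fun ⟨i, hi, h⟩ => ⟨e ⟨i, hi⟩, by simpa using h⟩, fun ⟨x, h⟩ => ⟨_, (e.symm x).2, h⟩⟩
  have hinj : ∀ x y, (e.symm x).val = (e.symm y).val ↔ x = y := fun x y => by
    rw [Fin.val_inj, e.symm.injective.eq_iff]
  simp only [Ver, lt_three, hall, hex, hF, true_and, forall_const, ne_eq, hinj]

lemma exists_bits (p : ℕ → Prop) (N : ℕ) :
    ∃ l : List Bool, l.length = N ∧ ∀ i, i < N → (l.getD i false = true ↔ p i) := by
  classical
  refine ⟨List.ofFn fun i : Fin N => decide (p i), by simp, fun i hi => ?_⟩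
  simp [List.getD_eq_getElem?_getD, hi]

lemma code_lt {n m a b : ℕ} (ha : a < m) (hb : b < n) : a * n + b < m * n := by
  have : (a + 1) * n ≤ m * n := Nat.mul_le_mul_right n ha
  nlinarith

lemma code_inj {n a b c d : ℕ} (hb : b < n) (hd : d < n) (h : a * n + b = c * n + d) :
    a = c ∧ b = d := by
  have h1 : (a * n + b) / n = a := by
    rw [Nat.add_comm, Nat.add_mul_div_right _ _ (by omega), Nat.div_eq_of_lt hb, Nat.zero_add]
  have h2 : (c * n + d) / n = c := by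
    rw [Nat.add_comm, Nat.add_mul_div_right _ _ (by omega), Nat.div_eq_of_lt hd, Nat.zero_add]
  have h3 : a = c := by rw [← h1, h, h2]
  subst h3
  exact ⟨rfl, by omega⟩

/-- The check on bit strings. -/
def VerB (n : ℕ) (F : ℕ → ℕ → ℕ → ℕ) (z o : ℕ) (y w : List Bool) : Prop :=
  (y.length - n * n) / n < n → Ver (· < n) F z o (fun a b => y.getD (a * n + b) false = true)
    (fun c u v => w.getD ((c * n + u) * n + v) false = true) ((y.length - n * n) / n)
    ((y.length - n * n) % n)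

lemma crit2_iff_bits (A : Alg) {n : ℕ} (e : Fin n ≃ A.carrier) {F : ℕ → ℕ → ℕ → ℕ}
    (hF : ∀ k x y, F k (e.symm x).val (e.symm y).val = (e.symm (A.op k x y)).val) :
    Crit2 A ↔ ∀ y : List Bool, y.length ≤ n ^ 3 + 2 * n ^ 2 → ∃ w : List Bool,
      w.length ≤ n ^ 3 + 2 * n ^ 2 ∧ VerB n F (e.symm A.zero).val (e.symm A.one).val y w := by
  have hn : 0 < n := Fin.pos (e.symm A.zero)
  have hlt : ∀ x, (e.symm x).val < n := fun x => (e.symm x).2
  have hinj : ∀ x y, (e.symm x).val = (e.symm y).val → x = y := fun x y h =>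
    e.symm.injective (Fin.ext h)
  rw [crit2_iff_ver]
  constructor
  · intro h y _
    by_cases ha : (y.length - n * n) / n < n
    swap
    · exact ⟨[], by simp, fun h' => (ha h').elim⟩
    have hb : (y.length - n * n) % n < n := Nat.mod_lt _ hn
    obtain ⟨G, hG⟩ := h (fun a b => y.getD ((e.symm a).val * n + (e.symm b).val) false = true)
      (e ⟨_, ha⟩) (e ⟨_, hb⟩)
    obtain ⟨w, hw, hw'⟩ := exists_bits (fun i => ∃ c u v,
      i = ((e.symm c).val * n + (e.symm u).val) * n + (e.symm v).val ∧ G c u v) (n * n * n)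
    refine ⟨w, by rw [hw]; nlinarith [Nat.zero_le (n ^ 2)], fun _ => ?_⟩
    have := (ver_num e hF A.zero A.one (e ⟨_, ha⟩) (e ⟨_, hb⟩)
      (fun a b => y.getD (a * n + b) false = true)
      (fun c u v => w.getD ((c * n + u) * n + v) false = true)).2 ?_
    · simpa only [Equiv.symm_apply_apply] using this
    · have e1 : (fun c u v => w.getD (((e.symm c).val * n + (e.symm u).val) * n + (e.symm v).val)
          false = true) = G := by
        funext c u v
        rw [hw' _ (code_lt (code_lt (hlt c) (hlt u)) (hlt v))]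
        refine propext ⟨?_, fun h' => ⟨c, u, v, rfl, h'⟩⟩
        rintro ⟨c', u', v', h1, h2⟩
        obtain ⟨h3, h4⟩ := code_inj (hlt v) (hlt v') h1
        obtain ⟨h5, h6⟩ := code_inj (hlt u) (hlt u') h3
        rwa [hinj _ _ h4, hinj _ _ h5, hinj _ _ h6]
      rw [e1]
      exact hG
  · intro h S a b
    obtain ⟨y, hy, hy'⟩ := exists_bits (fun i => ∃ u v,
      i = (e.symm u).val * n + (e.symm v).val ∧ S u v)
      (n * n + ((e.symm a).val * n + (e.symm b).val))
    have hab := code_lt (hlt a) (hlt b)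
    obtain ⟨w, -, hw⟩ := h y (by rw [hy]; nlinarith [Nat.zero_le (n ^ 3)])
    have h0 : y.length - n * n = (e.symm a).val * n + (e.symm b).val := by omega
    obtain ⟨h1, h2⟩ := code_inj (a := (y.length - n * n) / n) (Nat.mod_lt (y.length - n * n) hn)
      (hlt b) (by rw [← h0]; exact Nat.div_add_mod' _ _)
    unfold VerB at hw
    rw [h1, h2] at hw
    have := (ver_num e hF A.zero A.one a b _ _).1 (hw (hlt a))
    have e1 : (fun u v => y.getD ((e.symm u).val * n + (e.symm v).val) false = true) = S := by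
      funext u v
      rw [hy' _ (lt_of_lt_of_le (code_lt (hlt u) (hlt v)) (Nat.le_add_right _ _))]
      refine propext ⟨?_, fun h' => ⟨u, v, rfl, h'⟩⟩
      rintro ⟨u', v', h3, h4⟩
      obtain ⟨h5, h6⟩ := code_inj (hlt v) (hlt v') h3
      rwa [hinj _ _ h5, hinj _ _ h6]
    rw [e1] at this
    exact ⟨_, this⟩

section
variable {α : Type} [N487b59b3 α] {n : α → ℕ}

theorem ptp_all (hn : PT n) (hs : Small n) {p : α → ℕ → Prop}
    (hp : PTP fun q : α × ℕ => p q.1 q.2) : PTP fun a => ∀ i, i < n a → p a i :=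
  (PTP.forall_mem (hn.range hs) hp).congr fun a => by simp

theorem ptp_ex (hn : PT n) (hs : Small n) {p : α → ℕ → Prop}
    (hp : PTP fun q : α × ℕ => p q.1 q.2) : PTP fun a => ∃ i, i < n a ∧ p a i :=
  (PTP.exists_mem (hn.range hs) hp).congr fun a => by simp

end

/-- Inputs: the size, three tables, two constants. -/
abbrev TabIn : Type := ℕ × List (List ℕ) × List (List ℕ) × List (List ℕ) × ℕ × ℕ

/-- Table look-up. -/
def look (x : TabIn) (k i j : ℕ) : ℕ :=
  ((if k = 0 then x.2.1 else if k = 1 then x.2.2.1 else x.2.2.2.1).getD i []).getD j 0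

theorem ptp_verB : PTP fun q : TabIn × List Bool × List Bool =>
    VerB q.1.2.1.length (look q.1) q.1.2.2.2.2.1 q.1.2.2.2.2.2 q.2.1 q.2.2 := by
  unfold VerB Ver look
  repeat' first
    | refine ptp_all (by fun_prop) (by fun_prop) ?_
    | refine ptp_ex (by fun_prop) (by fun_prop) ?_
    | refine PTP.imp ?_ ?_
    | refine PTP.and ?_ ?_
  all_goals fun_prop

theorem pi_two :
    ∃ (R : TabIn × List Bool × List Bool → Bool) (p : Polynomial ℕ), N68a2faeb.IsPolyTime R ∧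
      ∀ (A : Alg) (n : ℕ) (e : Fin n ≃ A.carrier), Primitive (QuasiGen A) ↔
        ∀ y : List Bool, y.length ≤ p.eval n → ∃ w : List Bool, w.length ≤ p.eval n ∧
          R ((n, opTable e A.meet, opTable e A.join, opTable e A.imp, (e.symm A.zero).val,
            (e.symm A.one).val), y, w) = true := by
  obtain ⟨R, hR, h⟩ := ptp_verB
  refine ⟨R, Polynomial.X ^ 3 + 2 * Polynomial.X ^ 2, hR.isPolyTime, fun A n e => ?_⟩
  have : Finite A.carrier := Finite.of_equiv _ e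
  have key : ∀ (f : A.carrier → A.carrier → A.carrier) (x y : A.carrier),
      ((opTable e f).getD (e.symm x) []).getD (e.symm y) 0 = (e.symm (f x y)).val := by
    intro f x y
    simp [opTable, List.getD_eq_getElem?_getD]
  have hlen : (opTable e A.meet).length = n := by simp [opTable]
  rw [primitive_iff_crit2, crit2_iff_bits A e (F := look (n, opTable e A.meet, opTable e A.join,
    opTable e A.imp, (e.symm A.zero).val, (e.symm A.one).val))]
  · simp only [h, hlen, Polynomial.eval_add, Polynomial.eval_mul, Polynomial.eval_pow,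
      Polynomial.eval_X, Polynomial.eval_ofNat]
  · intro k x y
    unfold look Alg.op
    split_ifs <;> exact key _ x y

end Pool.Agent.P.MP_51e3d2_lc
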