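import Mathlib
import Pool.Agent.P.MP_51e3d2_lc.Dual
import Pool.Agent.P.MP_51e3d2_lc.IrDefs

/-!
A rooted finite poset whose algebra generates a primitive quasivariety has the shape.
-/

set_option autoImplicit false

namespace Pool.Agent.P.MP_51e3d2_lc

variable {P : Type} [PartialOrder P]

/-- Finite members that are images of finite members are separated by maps back. -/
def Gp (A : Alg) : Prop :=
  ∀ (B C : Alg) [Finite B.carrier] [Finite C.carrier], Sep B A → Sep C A → Onto B C → Sep C B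

lemma Gp.mono {A A' : Alg} (h : Gp A) (h' : Sep A' A) : Gp A' :=
  fun B C _ _ hB hC => h B C (hB.trans h') (hC.trans h')

/-- The poset with one new maximal point, whose strict lower set is `T`. -/
def NewPt (_ : LowerSet P) : Type := Option P

/-- The order of `NewPt`. -/
def NewPt.le (T : LowerSet P) : Option P → Option P → Prop
  | some a, some b => a ≤ b
  | some a, none => a ∈ T
  | none, some _ => False
  | none, none => True

instance (T : LowerSet P) : PartialOrder (NewPt T) where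
  le := NewPt.le T
  le_refl := by
    rintro (_ | a)
    · trivial
    · exact le_refl a
  le_trans := by
    rintro (_ | a) (_ | b) (_ | c) h1 h2
    exacts [trivial, h2, trivial, h1.elim, h1, h2.elim, T.lower h1 h2, le_trans (α := P) h1 h2]
  le_antisymm := by
    rintro (_ | a) (_ | b) h1 h2
    exacts [rfl, h1.elim, h2.elim, congrArg some (le_antisymm (α := P) h1 h2)]

instance (T : LowerSet P) [Finite P] : Finite (NewPt T) := inferInstanceAs (Finite (Option P))

lemma pm_some (T : LowerSet P) : PM (Q := NewPt T) (some : P → Option P) := by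
  rintro x (_ | q)
  · exact ⟨fun h => h.elim, fun ⟨_, _, h⟩ => by cases h⟩
  · refine ⟨fun h => ⟨q, h, rfl⟩, ?_⟩
    rintro ⟨y, hy, h⟩
    cases h
    exact hy

/-- A point above exactly two given points of the lowest level over `S`. -/
lemma tight [Finite P] (hG : Gp (L P)) {r : P} (hr : ∀ x, x ≤ r) {S : Set P}
    (hS : ∀ s ∈ S, ∀ x, s ≤ x) {a b : P} (hab : a ≠ b) (ha : a ∉ S) (hb : b ∉ S)
    (ha' : ∀ t, t < a → t ∈ S) (hb' : ∀ t, t < b → t ∈ S) :
    ∃ c, ∀ t, t < c ↔ t ∈ S ∨ t = a ∨ t = b := by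
  classical
  have hlow : ∀ {s t}, s ∈ S → t ≤ s → t ∈ S := fun hs ht => le_antisymm ht (hS _ hs _) ▸ hs
  have hnab : ¬ a ≤ b := fun h => ha (hb' a (lt_of_le_of_ne h hab))
  have hnba : ¬ b ≤ a := fun h => hb (ha' b (lt_of_le_of_ne h hab.symm))
  let T : LowerSet P := ⟨{t | t ∈ S ∨ t = a ∨ t = b}, by
    rintro u t h (hu | rfl | rfl)
    · exact Or.inl (hlow hu h)
    · exact h.lt_or_eq.elim (fun h => Or.inl (ha' t h)) fun h => Or.inr (Or.inl h)
    · exact h.lt_or_eq.elim (fun h => Or.inl (hb' t h)) fun h => Or.inr (Or.inr h)⟩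
  have hT : ∀ t, t ∈ T ↔ t ∈ S ∨ t = a ∨ t = b := fun _ => Iff.rfl
  let f : P → NewPt T := fun t => if t ∈ S then some t else if a ≤ t then
    (if ∃ m, m ≤ t ∧ m ∉ S ∧ ¬ a ≤ m then none else some a) else some b
  have f1 : ∀ t, t ∈ S → f t = some t := fun t h => if_pos h
  have f2 : ∀ t, t ∉ S → ¬ a ≤ t → f t = some b := fun t h h' =>
    (if_neg h).trans (if_neg h')
  have f3 : ∀ t, a ≤ t → (∃ m, m ≤ t ∧ m ∉ S ∧ ¬ a ≤ m) → f t = none := fun t h h' =>
    (if_neg fun h'' => ha (hlow h'' h)).trans ((if_pos h).trans (if_pos h'))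
  have f4 : ∀ t, a ≤ t → (¬ ∃ m, m ≤ t ∧ m ∉ S ∧ ¬ a ≤ m) → f t = some a := fun t h h' =>
    (if_neg fun h'' => ha (hlow h'' h)).trans ((if_pos h).trans (if_neg h'))
  have fa : f a = some a := f4 a le_rfl fun ⟨m, h1, h2, h3⟩ =>
    h1.lt_or_eq.elim (fun h => h2 (ha' m h)) fun h => h3 h.ge
  have hf : PM f := by
    intro x q
    constructor
    · intro hq
      by_cases hqx : q = f x
      · exact ⟨x, le_rfl, hqx.symm⟩
      have hlow' : ∀ s ∈ S, q = some s → ∃ y, y ≤ x ∧ f y = q := fun s hs e =>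
        ⟨s, hS s hs x, (f1 s hs).trans e.symm⟩
      by_cases h1 : x ∈ S
      · rw [f1 x h1] at hq
        rcases q with _ | q
        · exact hq.elim
        · exact hlow' q (hlow h1 hq) rfl
      by_cases h2 : a ≤ x
      · by_cases h3 : ∃ m, m ≤ x ∧ m ∉ S ∧ ¬ a ≤ m
        · rw [f3 x h2 h3] at hq hqx
          rcases q with _ | q
          · exact (hqx rfl).elim
          · rcases (hT q).1 hq with h | rfl | rfl
            · exact hlow' q h rfl
            · exact ⟨q, h2, fa⟩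
            · obtain ⟨m, hm1, hm2, hm3⟩ := h3
              exact ⟨m, hm1, f2 m hm2 hm3⟩
        · rw [f4 x h2 h3] at hq hqx
          rcases q with _ | q
          · exact hq.elim
          · exact hlow' q (ha' q (lt_of_le_of_ne hq fun e => hqx (congrArg some e))) rfl
      · rw [f2 x h1 h2] at hq hqx
        rcases q with _ | q
        · exact hq.elim
        · exact hlow' q (hb' q (lt_of_le_of_ne hq fun e => hqx (congrArg some e))) rfl
    · rintro ⟨y, hy, rfl⟩
      have hx : ∀ u ∈ T, (x ∈ S → u ≤ x) → (u ≤ b ∨ a ≤ x) →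
          (u ≤ a ∨ ¬ a ≤ x ∨ ∃ m, m ≤ x ∧ m ∉ S ∧ ¬ a ≤ m) →
          (show NewPt T from some u) ≤ f x := by
        intro u hu k1 k2 k3
        by_cases h1 : x ∈ S
        · rw [f1 x h1]
          exact k1 h1
        by_cases h2 : a ≤ x
        · by_cases h3 : ∃ m, m ≤ x ∧ m ∉ S ∧ ¬ a ≤ m
          · rw [f3 x h2 h3]
            exact hu
          · rw [f4 x h2 h3]
            exact k3.resolve_right fun h => h.elim (fun h => h h2) h3
        · rw [f2 x h1 h2]
          exact k2.resolve_right h2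
      by_cases h1 : y ∈ S
      · rw [f1 y h1]
        exact hx y (Or.inl h1) (fun _ => hy) (Or.inl (hS y h1 b)) (Or.inl (hS y h1 a))
      have h1' : x ∉ S := fun h => h1 (hlow h hy)
      by_cases h2 : a ≤ y
      · by_cases h3 : ∃ m, m ≤ y ∧ m ∉ S ∧ ¬ a ≤ m
        · obtain ⟨m, hm1, hm2⟩ := id h3
          exact le_of_eq ((f3 y h2 h3).trans (f3 x (h2.trans hy) ⟨m, hm1.trans hy, hm2⟩).symm)
        · rw [f4 y h2 h3]
          exact hx a (Or.inr (Or.inl rfl)) (fun h => (h1' h).elim) (Or.inr (h2.trans hy))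
            (Or.inl le_rfl)
      · rw [f2 y h1 h2]
        exact hx b (Or.inr (Or.inr rfl)) (fun h => (h1' h).elim) (Or.inl le_rfl)
          (Or.inr (Or.inr ⟨y, hy, h1, h2⟩))
  have hcov : Sep (L (NewPt T)) (L P) := by
    refine sep_of_cover ?_
    rintro (_ | q)
    · exact ⟨f, hf, r, f3 r (hr a) ⟨b, hr b, hb, hnab⟩⟩
    · exact ⟨_, pm_some T, q, rfl⟩
  have : Finite (L P).carrier := inferInstanceAs (Finite (LowerSet P))
  have : Finite (L (NewPt T)).carrier := inferInstanceAs (Finite (LowerSet (NewPt T)))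
  obtain ⟨g, hg, y, hy⟩ := cover_of_sep (hG _ _ hcov
    (sep_of_injective ⟨fun _ _ => rfl, fun _ _ => rfl, fun _ _ => rfl, rfl, rfl⟩
      Function.injective_id) (onto_of_injective (pm_some T) (Option.some_injective P))) r
  have hσ := hg.comp (pm_some T)
  have hnone : ∀ q, q ≤ g none ↔ q = g none ∨ ∃ u ∈ T, g (some u) = q := by
    intro q
    refine (hg none q).trans ⟨?_, ?_⟩
    · rintro ⟨_ | u, hu, rfl⟩
      · exact Or.inl rfl
      · exact Or.inr ⟨u, hu, rfl⟩
    · rintro (rfl | ⟨u, hu, rfl⟩)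
      · exact ⟨none, le_rfl, rfl⟩
      · exact ⟨some u, hu, rfl⟩
  have fin : ∀ c, (∀ t, t ≤ c ↔ t = c ∨ t ∈ T) → ∀ t, t < c ↔ t ∈ S ∨ t = a ∨ t = b := by
    intro c hc t
    have hac : a ≤ c := (hc a).2 (Or.inr (Or.inr (Or.inl rfl)))
    have hbc : b ≤ c := (hc b).2 (Or.inr (Or.inr (Or.inr rfl)))
    refine ⟨fun h => ((hc t).1 h.le).resolve_left h.ne, fun h =>
      lt_of_le_of_ne ((hc t).2 (Or.inr h)) ?_⟩
    rintro rfl
    rcases h with h | rfl | rfl
    exacts [ha (hlow h hac), hnba hbc, hnab hac]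
  rcases y with _ | y
  · refine ⟨r, fin r fun t => ⟨fun _ => ?_, fun _ => hr t⟩⟩
    have hrT : r ∉ T := by
      rintro (h | h | h)
      exacts [ha (hlow h (hr a)), hnba (h ▸ hr b), hnab (h ▸ hr a)]
    have h1 : (T : Set P) ⊆ {r}ᶜ := fun u hu e => hrT (e ▸ hu)
    have h2 : ({r}ᶜ : Set P) ⊆ (fun u => g (some u)) '' T := by
      intro q hq
      have := (hnone q).1 (hy ▸ hr q)
      rw [hy] at this
      exact this.resolve_left hq
    have h3 := Set.eq_of_subset_of_ncard_le h1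
      ((Set.ncard_le_ncard h2).trans (Set.ncard_image_le (Set.toFinite _)))
    by_cases e : t = r
    · exact Or.inl e
    · right
      change t ∈ (T : Set P)
      rw [h3]
      exact e
  · have hs : Function.Surjective fun u => g (some u) := fun q => by
      obtain ⟨u, -, hu⟩ := (hσ y q).1 (le_of_le_of_eq (hr q) hy.symm)
      exact ⟨u, hu⟩
    have hi := Finite.injective_iff_surjective.2 hs
    obtain ⟨c, hc⟩ := hs (g none)
    refine ⟨c, fin c fun t => ?_⟩
    have e1 : t ≤ c ↔ g (some t) ≤ g (some c) := by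
      refine ⟨hσ.mono, fun h => ?_⟩
      obtain ⟨u, hu, e⟩ := (hσ c _).1 h
      exact hi e ▸ hu
    have hc' : g (some c) = g none := hc
    rw [e1, hc', hnone, ← hc']
    constructor
    · rintro (h | ⟨u, hu, h⟩)
      exacts [Or.inl (hi h), Or.inr (hi h ▸ hu)]
    · rintro (rfl | h)
      exacts [Or.inl rfl, Or.inr ⟨t, h, rfl⟩]

lemma exists_min_le [Finite P] (x : P) : ∃ s, s ≤ x ∧ IsMin s := by
  obtain ⟨s, hs, h⟩ := Finite.exists_le_minimal (p := fun _ : P => True) (a := x) trivial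
  exact ⟨s, hs, fun b hb => h.2 trivial hb⟩

/-- The same inside an upper set of points that are not minimal. -/
lemma tight_in [Finite P] (hG : Gp (L P)) {r : P} (hr : ∀ x, x ≤ r) {W : Set P}
    (hW : IsUpperSet W) (hW' : ∀ x ∈ W, ¬ IsMin x) {a b : P} (hab : a ≠ b) (ha : a ∈ W)
    (hb : b ∈ W) (ha' : ∀ t ∈ W, ¬ t < a) (hb' : ∀ t ∈ W, ¬ t < b) :
    ∃ c ∈ W, ∀ t ∈ W, t < c ↔ t = a ∨ t = b := by
  classical
  let f : P → WithBot W := fun t => if h : t ∈ W then (⟨t, h⟩ : W) else ⊥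
  have f1 : ∀ (t) (h : t ∈ W), f t = (⟨t, h⟩ : W) := fun t h => dif_pos h
  have f2 : ∀ t, t ∉ W → f t = ⊥ := fun t h => dif_neg h
  have hf : PM f := by
    intro x q
    constructor
    · intro hq
      induction q using WithBot.recBotCoe with
      | bot =>
        obtain ⟨s, hs, h⟩ := exists_min_le x
        exact ⟨s, hs, f2 s fun h' => hW' s h' h⟩
      | coe q =>
        by_cases hx : x ∈ W
        · rw [f1 x hx, WithBot.coe_le_coe] at hq
          exact ⟨q, hq, f1 q q.2⟩
        · rw [f2 x hx] at hq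
          simp at hq
    · rintro ⟨y, hy, rfl⟩
      by_cases h : y ∈ W
      · rw [f1 y h, f1 x (hW hy h), WithBot.coe_le_coe]
        exact hy
      · rw [f2 y h]
        exact bot_le
  have hrW : r ∈ W := hW (hr a) ha
  have hr' : ∀ q, q ≤ f r := by
    intro q
    rw [f1 r hrW]
    induction q using WithBot.recBotCoe with
    | bot => exact bot_le
    | coe q => exact WithBot.coe_le_coe.2 (hr q)
  have : Finite (WithBot W) := inferInstanceAs (Finite (Option W))
  have hlt : ∀ (x) (hx : x ∈ W), (∀ t ∈ W, ¬ t < x) → ∀ t : WithBot W,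
      t < ((⟨x, hx⟩ : W) : WithBot W) → t ∈ ({⊥} : Set (WithBot W)) := by
    intro x hx h t ht
    induction t using WithBot.recBotCoe with
    | bot => rfl
    | coe t => exact (h t t.2 (WithBot.coe_lt_coe.1 ht : t < ⟨x, hx⟩)).elim
  obtain ⟨c, hc⟩ := tight (hG.mono (sep_of_cover fun q => by
    obtain ⟨y, -, hy⟩ := (hf r q).1 (hr' q)
    exact ⟨f, hf, y, hy⟩)) hr' (S := {⊥}) (by rintro _ rfl x; exact bot_le)
    (a := ((⟨a, ha⟩ : W) : WithBot W)) (b := ((⟨b, hb⟩ : W) : WithBot W)) (by simpa using hab)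
    (by simp) (by simp) (hlt a ha ha') (hlt b hb hb')
  induction c using WithBot.recBotCoe with
  | bot => exact (not_lt_bot ((hc ⊥).2 (Or.inl rfl))).elim
  | coe c =>
    refine ⟨c, c.2, fun t ht => ?_⟩
    have := hc ((⟨t, ht⟩ : W) : WithBot W)
    simpa [← Subtype.coe_lt_coe] using this

theorem shape_of_gp [Finite P] (hG : Gp (L P)) {r : P} (hr : ∀ x, x ≤ r) : Shape P := by
  have T1 : ∀ s t : P, IsMin s → IsMin t → s ≠ t → ∃ c, ∀ p, p < c ↔ p = s ∨ p = t := by
    intro s t hs ht hst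
    simpa using tight hG hr (S := ∅) (by simp) hst (by simp) (by simp)
      (fun u hu => (hs.not_lt hu).elim) fun u hu => (ht.not_lt hu).elim
  have up : ∀ {x y : P}, ¬ IsMin x → x ≤ y → ¬ IsMin y := fun hx h hy => hx (hy.mono h)
  have B : ∀ (n : ℕ) (a d b : P), {t | a ≤ t ∨ b ≤ t}.ncard = n → ¬ IsMin a → ¬ IsMin b →
      a < d → ¬ a ≤ b → ¬ b ≤ d → False := by
    intro n
    induction n using Nat.strong_induction_on with
    | _ n ih =>
    intro a d b hn ha hb had hab hbd
    have hba : ¬ b ≤ a := fun h => hbd (h.trans had.le)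
    obtain ⟨c, -, hc⟩ := tight_in hG hr (W := {t | a ≤ t ∨ b ≤ t})
      (fun x y h hx => hx.imp (·.trans h) (·.trans h)) (fun x hx => hx.elim (up ha) (up hb))
      (a := a) (b := b) (fun e => hab e.le) (Or.inl le_rfl) (Or.inr le_rfl)
      (fun t ht h => ht.elim h.not_ge fun h' => hba (h'.trans h.le))
      fun t ht h => ht.elim (fun h' => hab (h'.trans h.le)) h.not_ge
    have hbc : b < c := (hc b (Or.inr le_rfl)).2 (Or.inr rfl)
    refine ih _ ?_ b c d rfl hb (up ha had.le) hbc hbd fun h => ?_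
    · rw [← hn]
      refine Set.ncard_lt_ncard ⟨fun t ht => ht.elim Or.inr fun h => Or.inl (had.le.trans h),
        fun h => ?_⟩
      exact (h (Or.inl le_rfl : a ∈ {t | a ≤ t ∨ b ≤ t})).elim hba had.not_ge
    · rcases h.lt_or_eq with h | rfl
      · rcases (hc d (Or.inl had.le)).1 h with rfl | rfl
        exacts [lt_irrefl _ had, hbd le_rfl]
      · exact hbd hbc.le
  have B' : ∀ a d b : P, ¬ IsMin a → ¬ IsMin b → a < d → ¬ a ≤ b → ¬ b ≤ d → False :=
    fun a d b => B _ a d b rfl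
  have W3 : ∀ a b d : P, ¬ IsMin a → ¬ IsMin b → ¬ IsMin d → ¬ a ≤ b → ¬ b ≤ a → ¬ a ≤ d →
      ¬ d ≤ a → ¬ b ≤ d → ¬ d ≤ b → False := by
    intro a b d ha hb hd hab hba had hda hbd hdb
    obtain ⟨c, -, hc⟩ := tight_in hG hr (W := {t | a ≤ t ∨ b ≤ t ∨ d ≤ t})
      (fun x y h hx => hx.imp (·.trans h) (·.imp (·.trans h) (·.trans h)))
      (fun x hx => hx.elim (up ha) (·.elim (up hb) (up hd)))
      (a := a) (b := b) (fun e => hab e.le) (Or.inl le_rfl) (Or.inr (Or.inl le_rfl))
      (fun t ht h => ht.elim h.not_ge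
        (·.elim (fun h' => hba (h'.trans h.le)) fun h' => hda (h'.trans h.le)))
      fun t ht h => ht.elim (fun h' => hab (h'.trans h.le))
        (·.elim h.not_ge fun h' => hdb (h'.trans h.le))
    have hac : a < c := (hc a (Or.inl le_rfl)).2 (Or.inl rfl)
    refine B' a c d ha hd hac had fun h => ?_
    rcases h.lt_or_eq with h | rfl
    · rcases (hc d (Or.inr (Or.inr le_rfl))).1 h with rfl | rfl
      exacts [had le_rfl, hbd le_rfl]
    · exact had hac.le
  -- a point that is not minimal and misses a minimal point is incomparable with a tight point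
  have K : ∀ s a : P, IsMin s → ¬ IsMin a → ¬ s ≤ a → ∃ c, s < c ∧ ∀ x, ¬ IsMin x → ¬ x < c := by
    intro s a hs ha hsa
    obtain ⟨s', h1, h2⟩ := exists_min_le a
    obtain ⟨c, hc⟩ := T1 s s' hs h2 fun e => hsa (e ▸ h1)
    refine ⟨c, (hc s).2 (Or.inl rfl), fun x hx h => ?_⟩
    rcases (hc x).1 h with rfl | rfl
    exacts [hx hs, hx h2]
  have M3 : ∀ s t u : P, IsMin s → IsMin t → IsMin u → s ≠ t → s ≠ u → t ≠ u → False := by
    intro s t u hs ht hu hst hsu htu
    obtain ⟨x, hx⟩ := T1 s t hs ht hst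
    obtain ⟨y, hy⟩ := T1 s u hs hu hsu
    obtain ⟨z, hz⟩ := T1 t u ht hu htu
    have k : ∀ {x y a b c : P}, (∀ p, p < y ↔ p = b ∨ p = c) → a < x → a ≠ b → a ≠ c → ¬ x ≤ y :=
      fun h h1 h2 h3 h4 => ((h _).1 (h1.trans_le h4)).elim h2 h3
    have sx := (hx s).2 (Or.inl rfl)
    have tx := (hx t).2 (Or.inr rfl)
    have sy := (hy s).2 (Or.inl rfl)
    have uy := (hy u).2 (Or.inr rfl)
    have tz := (hz t).2 (Or.inl rfl)
    have uz := (hz u).2 (Or.inr rfl)
    exact W3 x y z sx.not_isMin sy.not_isMin tz.not_isMin (k hy tx hst.symm htu)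
      (k hx uy hsu.symm htu.symm) (k hz sx hst hsu) (k hx uz hsu.symm htu.symm)
      (k hz sy hst hsu) (k hy tz hst.symm htu)
  have W1 : ∀ s a b : P, IsMin s → ¬ s ≤ a → ¬ s ≤ b → ¬ a ≤ b → ¬ b ≤ a → False := by
    intro s a b hs hsa hsb hab hba
    have two : ∀ a b : P, ¬ s ≤ a → ¬ s ≤ b → ¬ a ≤ b → IsMin a → False := by
      intro a b hsa hsb hab ha
      obtain ⟨u, h1, h2⟩ := exists_min_le b
      exact M3 s a u hs ha h2 (fun e => hsa e.le) (fun e => hsb (e ▸ h1)) fun e => hab (e ▸ h1)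
    by_cases ha : IsMin a
    · exact two a b hsa hsb hab ha
    by_cases hb : IsMin b
    · exact two b a hsb hsa hba hb
    obtain ⟨c, h1, h2⟩ := K s a hs ha hsa
    exact W3 a b c ha hb h1.not_isMin hab hba
      (fun h => h2 a ha (lt_of_le_of_ne h fun e => hsa (e ▸ h1.le))) (fun h => hsa (h1.le.trans h))
      (fun h => h2 b hb (lt_of_le_of_ne h fun e => hsb (e ▸ h1.le))) fun h => hsb (h1.le.trans h)
  refine ⟨fun p q r => ?_, fun a d b had hab hbd => ?_, T1⟩
  · by_contra hcon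
    simp only [not_or] at hcon
    obtain ⟨h1, h2, h3, h4, h5, h6⟩ := hcon
    by_cases hp : IsMin p
    · exact W1 p q r hp h1 h3 h5 h6
    by_cases hq : IsMin q
    · exact W1 q p r hq h2 h5 h3 h4
    by_cases hr : IsMin r
    · exact W1 r p q hr h4 h6 h1 h2
    exact W3 p q r hp hq hr h1 h2 h3 h4 h5 h6
  · by_contra ha
    by_cases hb : IsMin b
    · obtain ⟨c, h1, h2⟩ := K b a hb ha fun h => hbd (h.trans had.le)
      exact B' a d c ha h1.not_isMin had
        (fun h => h2 a ha (lt_of_le_of_ne h fun e => hbd ((e ▸ h1.le : b ≤ a).trans had.le)))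
        fun h => hbd (h1.le.trans h)
    · exact B' a d b ha hb had hab hbd

end Pool.Agent.P.MP_51e3d2_lc
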