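import Mathlib
import Pool.Agent.P.MP_51e3d2_lc.Nec

/-!
Posets with the shape retract onto their principal lower sets.
-/

set_option autoImplicit false

namespace Pool.Agent.P.MP_51e3d2_lc

variable {P Q : Type} [PartialOrder P] [PartialOrder Q]

/-- The shape below a point. -/
def ShAt (x : P) : Prop :=
  (∀ p q r, p ≤ x → q ≤ x → r ≤ x → p ≤ q ∨ q ≤ p ∨ p ≤ r ∨ r ≤ p ∨ q ≤ r ∨ r ≤ q) ∧
  (∀ a d b, d ≤ x → b ≤ x → a < d → ¬ a ≤ b → ¬ b ≤ d → IsMin a) ∧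
  (∀ s t, s ≤ x → t ≤ x → IsMin s → IsMin t → s ≠ t →
    ∃ c, c ≤ x ∧ ∀ p, p < c ↔ p = s ∨ p = t)

lemma shAt_of_shape [Finite P] (h : Shape P) (x : P) : ShAt x := by
  refine ⟨fun p q r _ _ _ => h.1 p q r, fun a d b _ _ => h.2.1 a d b,
    fun s t hsx htx hs ht hst => ?_⟩
  obtain ⟨c, hc⟩ := h.2.2 s t hs ht hst
  by_cases hcx : c ≤ x
  · exact ⟨c, hcx, hc⟩
  obtain ⟨e, hex, ⟨hse, hte⟩, he⟩ :=
    Finite.exists_le_minimal (p := fun u : P => s ≤ u ∧ t ≤ u) (a := x) ⟨hsx, htx⟩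
  refine ⟨e, hex, fun p => ⟨fun hp => ?_, ?_⟩⟩
  · by_cases hm : IsMin p
    · rcases h.1 s t p with k | k | k | k | k | k
      exacts [(hst (ht.eq_of_le k)).elim, (hst (hs.eq_of_le k).symm).elim,
        Or.inl (hm.eq_of_le k).symm, Or.inl (hs.eq_of_le k), Or.inr (hm.eq_of_le k).symm,
        Or.inr (ht.eq_of_le k)]
    refine (hm (h.2.1 p e c hp (fun k => ?_) fun k => hcx (k.trans hex))).elim
    rcases k.lt_or_eq with k | rfl
    · rcases (hc p).1 k with rfl | rfl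
      exacts [hm hs, hm ht]
    · exact hcx (hp.le.trans hex)
  · rintro (rfl | rfl)
    · exact lt_of_le_of_ne hse fun k => hst (hs.eq_of_le (k ▸ hte)).symm
    · exact lt_of_le_of_ne hte fun k => hst (ht.eq_of_le (k ▸ hse))

/-- A bounded morphism on a lower set. -/
def PMOn (U : Set P) (f : P → Q) : Prop := ∀ x ∈ U, ∀ q, q ≤ f x ↔ ∃ y, y ≤ x ∧ f y = q

lemma PMOn.lift_min [Finite P] {U : Set P} {f : P → Q} (hf : PMOn U f) {x : P} (hx : x ∈ U)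
    {s : Q} (hs : IsMin s) (h : s ≤ f x) (hU : IsLowerSet U) :
    ∃ y, y ≤ x ∧ IsMin y ∧ f y = s := by
  obtain ⟨y, hy, rfl⟩ := (hf x hx s).1 h
  obtain ⟨u, hu, hm⟩ := exists_min_le y
  exact ⟨u, hu.trans hy, hm, hs.eq_of_le ((hf y (hU hy hx) _).2 ⟨u, hu, rfl⟩)⟩

lemma PMOn.tight {U : Set P} {f : P → Q} (hf : PMOn U f) {c s t : P} (hc : c ∈ U)
    (h : ∀ p, p < c ↔ p = s ∨ p = t) (hs : IsMin (f s)) (ht : IsMin (f t)) (hst : f s ≠ f t)
    (p : Q) : p < f c ↔ p = f s ∨ p = f t := by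
  have h1 : f s ≤ f c := (hf c hc _).2 ⟨s, ((h s).2 (Or.inl rfl)).le, rfl⟩
  have h2 : f t ≤ f c := (hf c hc _).2 ⟨t, ((h t).2 (Or.inr rfl)).le, rfl⟩
  constructor
  · intro hp
    obtain ⟨y, hy, rfl⟩ := (hf c hc p).1 hp.le
    rcases hy.lt_or_eq with k | rfl
    · exact ((h y).1 k).imp (congrArg f) (congrArg f)
    · exact (lt_irrefl _ hp).elim
  · rintro (rfl | rfl)
    · exact lt_of_le_of_ne h1 fun k => hst (hs.eq_of_le (k ▸ h2)).symm
    · exact lt_of_le_of_ne h2 fun k => hst (ht.eq_of_le (k ▸ h1))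

lemma ShAt.image [Finite P] {f : P → Q} (hf : PM f) {x : P} (h : ShAt x) : ShAt (f x) := by
  have hf' : PMOn Set.univ f := fun y _ => hf y
  refine ⟨fun p q r hp hq hr => ?_, fun a d b hd hb had hab hbd => ?_,
    fun s t hsx htx hs ht hst => ?_⟩
  · obtain ⟨p, hp', rfl⟩ := (hf x p).1 hp
    obtain ⟨q, hq', rfl⟩ := (hf x q).1 hq
    obtain ⟨r, hr', rfl⟩ := (hf x r).1 hr
    exact (h.1 p q r hp' hq' hr').imp hf.mono
      (·.imp hf.mono (·.imp hf.mono (·.imp hf.mono (·.imp hf.mono hf.mono))))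
  · obtain ⟨d, hd', rfl⟩ := (hf x d).1 hd
    obtain ⟨b, hb', rfl⟩ := (hf x b).1 hb
    obtain ⟨a, ha, rfl⟩ := (hf d a).1 had.le
    exact hf.isMin (h.2.1 a d b hd' hb' (lt_of_le_of_ne ha fun e => had.ne (congrArg f e))
      (fun k => hab (hf.mono k)) fun k => hbd (hf.mono k))
  · obtain ⟨s, h1, h2, rfl⟩ := hf'.lift_min (Set.mem_univ x) hs hsx isLowerSet_univ
    obtain ⟨t, h3, h4, rfl⟩ := hf'.lift_min (Set.mem_univ x) ht htx isLowerSet_univ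
    obtain ⟨c, hcx, hc⟩ := h.2.2 s t h1 h3 h2 h4 fun e => hst (congrArg f e)
    exact ⟨f c, hf.mono hcx, hf'.tight (Set.mem_univ c) hc hs ht hst⟩

/-- Lower sets that have a point just above them. -/
lemma ShAt.extend [Finite P] {z : P} (h : ShAt z) {V : Set P} (hV : IsLowerSet V)
    (hz : ∀ v ∈ V, v ≤ z)
    (hg : ∀ s ∈ V, ∀ t ∈ V, IsMin s → IsMin t → s ≠ t →
      (∀ p ∈ V, p = s ∨ p = t) ∨ ∃ c ∈ V, s < c ∧ t < c) :
    ∃ c, c ≤ z ∧ ∀ q, q ≤ c ↔ q = c ∨ q ∈ V := by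
  rcases V.eq_empty_or_nonempty with rfl | ⟨v, hv⟩
  · obtain ⟨c, h1, h2⟩ := exists_min_le z
    exact ⟨c, h1, fun q => ⟨fun k => Or.inl (h2.eq_of_le k), fun k => k.elim le_of_eq False.elim⟩⟩
  obtain ⟨a, -, ha⟩ := Finite.exists_le_maximal (p := fun u : P => u ∈ V) hv
  by_cases hg' : ∀ u ∈ V, u ≤ a
  · exact ⟨a, hz a ha.1, fun q => ⟨fun k => Or.inr (hV k ha.1), fun k => k.elim le_of_eq (hg' q)⟩⟩
  simp only [not_forall] at hg'
  obtain ⟨w, hw, hwa⟩ := hg'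
  obtain ⟨b, hwb, hb⟩ := Finite.exists_le_maximal (p := fun u : P => u ∈ V) hw
  have hba : ¬ b ≤ a := fun k => hwa (hwb.trans k)
  have hab : ¬ a ≤ b := fun k => hba (ha.2 hb.1 k)
  have hmem : ∀ q, q ∈ V ↔ q ≤ a ∨ q ≤ b := by
    refine fun q => ⟨fun hq => ?_, fun k => k.elim (hV · ha.1) (hV · hb.1)⟩
    rcases h.1 a b q (hz a ha.1) (hz b hb.1) (hz q hq) with k | k | k | k | k | k
    exacts [(hab k).elim, (hba k).elim, Or.inl (ha.2 hq k), Or.inl k, Or.inr (hb.2 hq k), Or.inr k]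
  have mixed : ∀ a b : P, Maximal (· ∈ V) a → b ∈ V → ¬ a ≤ b → IsMin a → IsMin b := by
    intro a b ha hb hab hm
    obtain ⟨s, h1, h2⟩ := exists_min_le b
    rcases hg a ha.1 s (hV h1 hb) hm h2 (fun e => hab (e ▸ h1)) with k | ⟨c, hc, k, -⟩
    · rcases k b hb with rfl | rfl
      exacts [hm, h2]
    · exact (k.not_ge (ha.2 hc k.le)).elim
  by_cases hm : IsMin a
  · have hm' := mixed a b ha hb.1 hab hm
    obtain ⟨c, hcz, hc⟩ := h.2.2 a b (hz a ha.1) (hz b hb.1) hm hm' fun e => hab e.le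
    refine ⟨c, hcz, fun q => ?_⟩
    rw [le_iff_eq_or_lt, hc, hmem]
    exact or_congr_right (or_congr ⟨le_of_eq, hm.eq_of_le⟩ ⟨le_of_eq, hm'.eq_of_le⟩)
  have hm' : ¬ IsMin b := fun k => hm (mixed b a hb ha.1 hba k)
  obtain ⟨c, hcz, hac, hc⟩ := Finite.exists_le_minimal (p := fun u : P => a < u) (a := z)
    (lt_of_le_of_ne (hz a ha.1) fun e => hba (e ▸ hz b hb.1))
  have hbc : b ≤ c := by
    by_contra k
    exact hm (h.2.1 a c b hcz (hz b hb.1) hac hab k)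
  refine ⟨c, hcz, fun q => ⟨fun hq => ?_, ?_⟩⟩
  · rw [hmem]
    have up : a ≤ q → q = c ∨ q ≤ a ∨ q ≤ b := fun k =>
      k.lt_or_eq.elim (fun k => Or.inl (le_antisymm hq (hc k hq))) fun k => Or.inr (Or.inl k.ge)
    rcases h.1 a b q (hz a ha.1) (hz b hb.1) (hq.trans hcz) with k | k | k | k | k | k
    · exact (hab k).elim
    · exact (hba k).elim
    · exact up k
    · exact Or.inr (Or.inl k)
    · rcases k.lt_or_eq with k | k
      · refine up ?_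
        by_contra k'
        exact hm' (h.2.1 b q a (hq.trans hcz) (hz a ha.1) k hba k')
      · exact Or.inr (Or.inr k.ge)
    · exact Or.inr (Or.inr k)
  · rw [hmem]
    rintro (rfl | k | k)
    exacts [le_rfl, k.trans hac.le, k.trans hbc]

lemma retract_on [Finite P] (h : ∀ y : P, ShAt y) (z : P) (n : ℕ) :
    ∀ U : Set P, U.ncard = n → IsLowerSet U → (∀ t, t ≤ z → t ∈ U) →
      ∃ ρ : P → P, PMOn U ρ ∧ (∀ t ∈ U, ρ t ≤ z) ∧ ∀ t, t ≤ z → ρ t = t := by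
  classical
  induction n using Nat.strong_induction_on with
  | _ n ih =>
  intro U hn hU hzU
  by_cases hall : ∀ t ∈ U, t ≤ z
  · exact ⟨id, fun x _ q => by simp, hall, fun _ _ => rfl⟩
  simp only [not_forall] at hall
  obtain ⟨y₀, h1, h2⟩ := hall
  obtain ⟨y, -, ⟨hyU, hyz⟩, hy⟩ :=
    Finite.exists_le_maximal (p := fun u : P => u ∈ U ∧ ¬ u ≤ z) ⟨h1, h2⟩
  have hU' : IsLowerSet (U \ {y}) := by
    rintro u t htu ⟨hu, hne⟩
    refine ⟨hU htu hu, ?_⟩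
    rintro rfl
    exact hne (le_antisymm (hy ⟨hu, fun k => hyz (htu.trans k)⟩ htu) htu)
  obtain ⟨ρ, hρ, hρz, hid⟩ := ih _ (hn ▸ Set.ncard_sdiff_singleton_lt_of_mem hyU) (U \ {y}) rfl hU'
    fun t ht => ⟨hzU t ht, by rintro rfl; exact hyz ht⟩
  have hlt : ∀ t, t < y → t ∈ U \ {y} := fun t ht => ⟨hU ht.le hyU, ht.ne⟩
  obtain ⟨c, hcz, hc⟩ := (h z).extend (V := ρ '' {t | t < y}) (by
      rintro _ q hq ⟨t, ht, rfl⟩
      obtain ⟨u, hu, rfl⟩ := (hρ t (hlt t ht) q).1 hq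
      exact ⟨u, hu.trans_lt ht, rfl⟩)
    (by
      rintro _ ⟨t, ht, rfl⟩
      exact hρz t (hlt t ht))
    (by
      rintro _ ⟨s₀, hs₀, rfl⟩ _ ⟨t₀, ht₀, rfl⟩ hs ht hst
      obtain ⟨s, k1, k2, k3⟩ := hρ.lift_min (hlt s₀ hs₀) hs le_rfl hU'
      obtain ⟨t, k4, k5, k6⟩ := hρ.lift_min (hlt t₀ ht₀) ht le_rfl hU'
      rw [← k3] at hs hst ⊢
      rw [← k6] at ht hst ⊢
      obtain ⟨e, hey, he⟩ := (h y).2.2 s t (k1.trans hs₀.le) (k4.trans ht₀.le) k2 k5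
        fun k => hst (congrArg ρ k)
      rcases hey.lt_or_eq with k | rfl
      · have := hρ.tight (hlt e k) he hs ht hst
        exact Or.inr ⟨ρ e, ⟨e, k, rfl⟩, (this _).2 (Or.inl rfl), (this _).2 (Or.inr rfl)⟩
      · left
        rintro _ ⟨p, hp, rfl⟩
        exact ((he p).1 hp).imp (congrArg ρ) (congrArg ρ))
  have e1 : ∀ t, t ≠ y → Function.update ρ y c t = ρ t := fun t ht => Function.update_of_ne ht _ _
  have e2 : Function.update ρ y c y = c := Function.update_self _ _ _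
  refine ⟨Function.update ρ y c, fun x hx q => ?_, fun t ht => ?_, fun t ht => ?_⟩
  · by_cases hxy : x = y
    · subst hxy
      rw [e2, hc]
      constructor
      · rintro (rfl | ⟨t, ht, rfl⟩)
        exacts [⟨x, le_rfl, e2⟩, ⟨t, le_of_lt ht, e1 t (ne_of_lt ht)⟩]
      · rintro ⟨t, ht, rfl⟩
        rcases ht.lt_or_eq with k | rfl
        exacts [Or.inr ⟨t, k, (e1 t k.ne).symm⟩, Or.inl e2]
    · rw [e1 x hxy, hρ x ⟨hx, hxy⟩]
      exact exists_congr fun t => and_congr_right fun ht => by rw [e1 t (hU' ht ⟨hx, hxy⟩).2]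
  · by_cases hty : t = y
    · rw [hty, e2]
      exact hcz
    · rw [e1 t hty]
      exact hρz t ⟨ht, hty⟩
  · rw [e1 t (by rintro rfl; exact hyz ht), hid t ht]

theorem retract [Finite P] (h : ∀ y : P, ShAt y) (z : P) :
    ∃ ρ : P → P, PM ρ ∧ (∀ t, ρ t ≤ z) ∧ ∀ t, t ≤ z → ρ t = t := by
  obtain ⟨ρ, h1, h2, h3⟩ := retract_on h z _ Set.univ rfl isLowerSet_univ fun _ _ => trivial
  exact ⟨ρ, fun x => h1 x trivial, fun t => h2 t trivial, h3⟩

end Pool.Agent.P.MP_51e3d2_lc
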