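import Mathlib
import Pool.Agent.P.MP_51e3d2_lc.Suf
import Pool.Agent.P.MP_51e3d2_lc.Pi2

/-!
The subdirectly irreducible case.
-/

set_option autoImplicit false

namespace Pool.Agent.P.MP_51e3d2_lc

open Pool.Agent.Lib.PolyTime

lemma endo {B : Type} [HeytingAlgebra B] [Finite B] (h : ∀ y : J B, ShAt y) {a u v : B}
    (hne : u ⊓ a ≠ v ⊓ a) : ∃ g : B → B, IsHom (ofHeyting B) (ofHeyting B) g ∧ g u ≠ g v ∧
      ∀ p q, p ⊓ a = q ⊓ a → g p = g q := by
  obtain ⟨E, hE, hE', hmem⟩ := exists_rep B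
  obtain ⟨y, hy⟩ : ∃ y : J B, ¬ (y.1 ≤ u ⊓ a ↔ y.1 ≤ v ⊓ a) := by
    by_contra hcon
    simp only [not_exists, not_not] at hcon
    exact hne (E.injective (low_ext fun x => by rw [hmem, hmem, hcon]))
  have hya : y.1 ≤ a := by
    by_contra k
    simp [k] at hy
  obtain ⟨ρ, hρ, h1, h2⟩ := retract h y
  refine ⟨fun p => E.symm (pull hρ (E p)), hE'.comp ((pull_hom hρ).comp hE), fun e => hy ?_,
    fun p q e => congrArg E.symm (low_ext fun x => ?_)⟩
  · have : y ∈ pull hρ (E u) ↔ y ∈ pull hρ (E v) := by rw [E.symm.injective e]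
    rw [mem_pull, mem_pull, hmem, hmem, h2 y le_rfl] at this
    simp [hya, this]
  · have k : (ρ x).1 ≤ a := le_trans (h1 x) hya
    have : (ρ x).1 ≤ p ⊓ a ↔ (ρ x).1 ≤ q ⊓ a := by rw [e]
    rw [mem_pull, mem_pull, hmem, hmem]
    simpa [k] using this

/-- The conjunction of the equivalences of a list of equations. -/
def conj : List (Term × Term) → Term
  | [] => .one
  | e :: l => .meet (.meet (.imp e.1 e.2) (.imp e.2 e.1)) (conj l)

lemma conj_le {A : Type} [HeytingAlgebra A] (w : ℕ → A) (l : List (Term × Term)) :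
    ∀ e ∈ l, (show A from e.1.eval (ofHeyting A) w) ⊓ (conj l).eval (ofHeyting A) w =
      (show A from e.2.eval (ofHeyting A) w) ⊓ (conj l).eval (ofHeyting A) w := by
  induction l with
  | nil => simp
  | cons a l ih =>
    intro e he
    have key : ∀ x y p q c : A, (x = p ∧ y = q) ∨ x ⊓ c = y ⊓ c →
        x ⊓ ((p ⇨ q) ⊓ (q ⇨ p) ⊓ c) = y ⊓ ((p ⇨ q) ⊓ (q ⇨ p) ⊓ c) := by
      rintro x y p q c (⟨rfl, rfl⟩ | h)
      · refine le_antisymm (le_inf ?_ inf_le_right) (le_inf ?_ inf_le_right)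
        · exact (inf_le_inf_left x (inf_le_left.trans inf_le_left)).trans inf_himp_le
        · exact (inf_le_inf_left y (inf_le_left.trans inf_le_right)).trans inf_himp_le
      · rw [inf_left_comm, h, inf_left_comm]
    rcases List.mem_cons.1 he with rfl | he
    · exact key _ _ _ _ _ (Or.inl ⟨rfl, rfl⟩)
    · exact key _ _ _ _ _ (Or.inr (ih e he))

theorem var_eq_quasi {A : Type} [HeytingAlgebra A] [Finite A] (h : ∀ y : J A, ShAt y) :
    QuasiGen (ofHeyting A) = VarGen (ofHeyting A) := by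
  refine Set.Subset.antisymm (fun B hB e he => (satId_iff B e).2 (hB _ ((satId_iff _ e).1 he)))
    fun B hB q hq w hw => ?_
  have h1 : SatId (ofHeyting A) (.meet q.2.1 (conj q.1), .meet q.2.2 (conj q.1)) := by
    intro u
    by_contra hne
    obtain ⟨g, hg, k1, k2⟩ := endo (B := A) h hne
    refine k1 (((hg.eval u _).trans (hq _ fun e he => ?_)).trans (hg.eval u _).symm)
    exact ((hg.eval u _).symm.trans (k2 _ _ (conj_le (A := A) u q.1 e he))).trans (hg.eval u _)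
  have h2 : ∀ x, B.meet x B.one = x := fun x =>
    hB (.meet (.var 0) .one, .var 0) (fun u => inf_top_eq (α := A) (u 0)) fun _ => x
  have h3 : ∀ x, B.imp x x = B.one := fun x =>
    hB (.imp (.var 0) (.var 0), .one) (fun u => himp_self (α := A)) fun _ => x
  have h4 : ∀ l : List (Term × Term), (∀ e ∈ l, e.1.eval B w = e.2.eval B w) →
      (conj l).eval B w = B.one := by
    intro l
    induction l with
    | nil => exact fun _ => rfl
    | cons a l ih =>
      intro hl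
      simp only [conj, Term.eval]
      rw [hl a (by simp), ih fun e he => hl e (by simp [he]), h3, h2, h2]
  have := hB _ h1 w
  simp only [Term.eval] at this
  rwa [h4 _ hw, h2, h2] at this

lemma exists_ker {B A : Type} [HeytingAlgebra B] [HeytingAlgebra A] [Finite B] {π : B → A}
    (hπ : IsHom (ofHeyting B) (ofHeyting A) π) : ∃ a, ∀ p q, π p = π q ↔ p ⊓ a = q ⊓ a := by
  have hm : ∀ p q, π (p ⊓ q) = π p ⊓ π q := hπ.meet
  have hi : ∀ p q, π (p ⇨ q) = π p ⇨ π q := hπ.imp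
  obtain ⟨a, -, ha⟩ := Finite.exists_le_minimal (p := fun b : B => π b = ⊤) (a := ⊤) hπ.one
  have hle : ∀ p q, π p = π q → p ⊓ a ≤ q := by
    intro p q e
    have h1 : π (a ⊓ (p ⇨ q)) = ⊤ := by rw [hm, hi, ha.1, e, himp_self, inf_idem]
    exact (inf_le_inf_left p ((ha.2 h1 inf_le_left).trans inf_le_right)).trans inf_himp_le
  refine ⟨a, fun p q => ⟨fun e => le_antisymm (le_inf (hle p q e) inf_le_right)
    (le_inf (hle q p e.symm) inf_le_right), fun e => ?_⟩⟩
  have := congrArg π e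
  rwa [hm, hm, ha.1, inf_top_eq, inf_top_eq] at this

theorem primitive_of_shAt {A : Type} [HeytingAlgebra A] [Finite A] (h : ∀ y : J A, ShAt y) :
    Primitive (QuasiGen (ofHeyting A)) := by
  have : Finite (ofHeyting A).carrier := inferInstanceAs (Finite A)
  refine primitive_iff_crit2.2 fun (S : Set (A × A)) hS c c' hne => ?_
  let _ : Max S := ⟨((ofHeyting A).sq.sub S hS).join⟩
  let _ : Min S := ⟨((ofHeyting A).sq.sub S hS).meet⟩
  let _ : Top S := ⟨((ofHeyting A).sq.sub S hS).one⟩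
  let _ : Bot S := ⟨((ofHeyting A).sq.sub S hS).zero⟩
  let _ : HImp S := ⟨((ofHeyting A).sq.sub S hS).imp⟩
  let _ : Compl S := ⟨fun x => x ⇨ ⊥⟩
  let _ : HeytingAlgebra S := Function.Injective.heytingAlgebra Subtype.val Subtype.val_injective
    Iff.rfl Iff.rfl (fun _ _ => rfl) (fun _ _ => rfl) rfl rfl
    (fun x => himp_bot x.1) fun _ _ => rfl
  have hid : IsHom (ofHeyting S) ((ofHeyting A).sq.sub S hS) id :=
    ⟨fun _ _ => rfl, fun _ _ => rfl, fun _ _ => rfl, rfl, rfl⟩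
  obtain ⟨E, -, hE', -⟩ := exists_rep S
  obtain ⟨F, hF, -, -⟩ := exists_rep A
  have hsep : Sep (L (J S)) (L (J A)) :=
    ((((sep_of_injective hE' E.symm.injective).trans
      (sep_of_injective hid Function.injective_id)).trans (sub_sep _ _ hS)).trans
      (sq_sep _)).trans (sep_of_injective hF F.injective)
  have hsh : ∀ y : J S, ShAt y := fun y => by
    obtain ⟨f, hf, x, rfl⟩ := cover_of_sep hsep y
    exact (h x).image hf
  have hπ : IsHom (ofHeyting S) (ofHeyting A) fun p : S => p.1.1 :=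
    (fst_hom _).comp ((sub_hom _ _ hS).comp hid)
  obtain ⟨a, ha⟩ := exists_ker hπ
  have hσ : ∀ x : ((ofHeyting A).sub _ (hS.image (fst_hom _))).carrier, ∃ p : S, p.1.1 = x.1 := by
    rintro ⟨_, p, hp, rfl⟩
    exact ⟨⟨p, hp⟩, rfl⟩
  choose σ hσ using hσ
  obtain ⟨g, hg, k1, k2⟩ := endo hsh (a := a) (u := σ c) (v := σ c') fun e =>
    hne (Subtype.ext ((hσ c).symm.trans (((ha _ _).2 e).trans (hσ c'))))
  have k3 : ∀ x (p : S), x.1 = p.1.1 → g (σ x) = g p := fun x p e =>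
    k2 _ _ ((ha _ _).1 ((hσ x).trans e))
  refine ⟨fun x => g (σ x), ⟨fun x y => ?_, fun x y => ?_, fun x y => ?_, ?_, ?_⟩, k1⟩
  · exact (k3 _ (σ x ⊓ σ y) (congrArg₂ (· ⊓ ·) (hσ x) (hσ y)).symm).trans (hg.meet _ _)
  · exact (k3 _ (σ x ⊔ σ y) (congrArg₂ (· ⊔ ·) (hσ x) (hσ y)).symm).trans (hg.join _ _)
  · exact (k3 _ (σ x ⇨ σ y) (congrArg₂ (· ⇨ ·) (hσ x) (hσ y)).symm).trans (hg.imp _ _)
  · exact (k3 _ ⊥ rfl).trans hg.zero
  · exact (k3 _ ⊤ rfl).trans hg.one

lemma primitive_of_var {A : Alg} (h : Primitive (VarGen A)) : Primitive (QuasiGen A) := by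
  have hs : QuasiGen A ⊆ VarGen A := fun B hB e he =>
    (satId_iff B e).2 (hB _ ((satId_iff _ e).1 he))
  intro K hK hKQ
  obtain ⟨V, hV, e⟩ := h K hK (hKQ.trans hs)
  refine ⟨V, hV, Set.Subset.antisymm (fun B hB => ⟨hKQ hB, ?_⟩) fun B hB => ?_⟩
  · rw [e] at hB
    exact hB.2
  · rw [e]
    exact ⟨hs hB.1, hB.2⟩

theorem shape_of_primitive {A : Type} [HeytingAlgebra A] [Finite A] (ht : SupIrred (⊤ : A))
    (h : Primitive (QuasiGen (ofHeyting A))) : Shape (J A) := by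
  obtain ⟨E, -, hE', -⟩ := exists_rep A
  have hG : Gp (ofHeyting A) := fun B C _ _ => sep_of_primitive h
  exact shape_of_gp (hG.mono (sep_of_injective hE' E.symm.injective)) (r := ⟨⊤, ht⟩)
    fun x => (le_top : x.1 ≤ ⊤)

theorem irreducible_case {A : Type} [HeytingAlgebra A] [Finite A] (ht : SupIrred (⊤ : A)) :
    (Primitive (QuasiGen (ofHeyting A)) ↔ Shape (J A)) ∧
    (Primitive (QuasiGen (ofHeyting A)) ↔ Primitive (VarGen (ofHeyting A))) ∧
    (Primitive (QuasiGen (ofHeyting A)) → QuasiGen (ofHeyting A) = VarGen (ofHeyting A)) := by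
  have k := fun h => var_eq_quasi (shAt_of_shape (shape_of_primitive ht h))
  exact ⟨⟨shape_of_primitive ht, fun h => primitive_of_shAt (shAt_of_shape h)⟩,
    ⟨fun h => k h ▸ h, primitive_of_var⟩, k⟩

/-- Join-irreducibility as a bounded formula. -/
def IrF {X : Type} (D : X → Prop) (f : ℕ → X → X → X) (z a : X) : Prop :=
  a ≠ z ∧ ∀ b, D b → ∀ c, D c → f 1 b c = a → b = a ∨ c = a

/-- Minimality among the join-irreducible elements as a bounded formula. -/
def MinF {X : Type} (D : X → Prop) (f : ℕ → X → X → X) (z a : X) : Prop :=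
  ∀ b, D b → IrF D f z b → f 0 b a = b → f 0 a b = a

/-- The shape as a bounded formula. -/
def ShF {X : Type} (D : X → Prop) (f : ℕ → X → X → X) (z : X) : Prop :=
  (∀ p, D p → IrF D f z p → ∀ q, D q → IrF D f z q → ∀ r, D r → IrF D f z r →
    f 0 p q = p ∨ f 0 q p = q ∨ f 0 p r = p ∨ f 0 r p = r ∨ f 0 q r = q ∨ f 0 r q = r) ∧
  (∀ a, D a → IrF D f z a → ∀ d, D d → IrF D f z d → ∀ b, D b → IrF D f z b →
    (f 0 a d = a ∧ a ≠ d) → ¬ f 0 a b = a → ¬ f 0 b d = b → MinF D f z a) ∧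
  ∀ s, D s → IrF D f z s → ∀ t, D t → IrF D f z t → MinF D f z s → MinF D f z t → s ≠ t →
    ∃ c, D c ∧ IrF D f z c ∧ ∀ p, D p → IrF D f z p → ((f 0 p c = p ∧ p ≠ c) ↔ p = s ∨ p = t)

lemma shF_iff (A : Type) [HeytingAlgebra A] {f : ℕ → A → A → A} (f0 : ∀ a b, f 0 a b = a ⊓ b)
    (f1 : ∀ a b, f 1 a b = a ⊔ b) : ShF (fun _ => True) f ⊥ ↔ Shape (J A) := by
  have h0 : ∀ a b : A, f 0 a b = a ↔ a ≤ b := fun _ _ => by rw [f0, inf_eq_left]
  have h1 : ∀ a : A, IrF (fun _ => True) f ⊥ a ↔ SupIrred a := fun a => by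
    simp only [IrF, SupIrred, isMin_iff_eq_bot, forall_const, f1]
  simp only [ShF, MinF, h0, h1, forall_const, true_and, Shape, Subtype.forall, Subtype.exists,
    IsMin, Subtype.mk_le_mk, lt_iff_le_and_ne, ne_eq, Subtype.mk.injEq, exists_prop]

lemma shF_num {X : Type} {n : ℕ} (e : Fin n ≃ X) {f : ℕ → X → X → X} {F : ℕ → ℕ → ℕ → ℕ}
    (hF : ∀ k x y, F k (e.symm x).val (e.symm y).val = (e.symm (f k x y)).val) (z : X) :
    ShF (· < n) F (e.symm z).val ↔ ShF (fun _ => True) f z := by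
  have hall : ∀ p : ℕ → Prop, (∀ i, i < n → p i) ↔ ∀ x, p (e.symm x).val := fun p =>
    ⟨fun h x => h _ (e.symm x).2, fun h i hi => by simpa using h (e ⟨i, hi⟩)⟩
  have hex : ∀ p : ℕ → Prop, (∃ i, i < n ∧ p i) ↔ ∃ x, p (e.symm x).val := fun p =>
    ⟨fun ⟨i, hi, h⟩ => ⟨e ⟨i, hi⟩, by simpa using h⟩, fun ⟨x, h⟩ => ⟨_, (e.symm x).2, h⟩⟩
  have hinj : ∀ x y, (e.symm x).val = (e.symm y).val ↔ x = y := fun x y => by
    rw [Fin.val_inj, e.symm.injective.eq_iff]
  simp only [ShF, MinF, IrF, hall, hex, hF, true_and, forall_const, ne_eq, hinj]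

theorem ptp_shF : PTP fun x : TabIn => ShF (· < x.2.1.length) (look x) x.2.2.2.2.1 := by
  unfold ShF MinF IrF look
  repeat' first
    | refine ptp_all (by fun_prop) (by fun_prop) ?_
    | refine ptp_ex (by fun_prop) (by fun_prop) ?_
    | refine PTP.imp ?_ ?_
    | refine PTP.and ?_ ?_
  all_goals fun_prop

theorem poly_time : ∃ f : TabIn → Bool, N68a2faeb.IsPolyTime f ∧
    ∀ (A : Type) [HeytingAlgebra A] (n : ℕ) (e : Fin n ≃ A), SupIrred (⊤ : A) →
      (f (n, opTable e (fun a b => a ⊓ b), opTable e (fun a b => a ⊔ b),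
        opTable e (fun a b => a ⇨ b), (e.symm ⊥).val, (e.symm ⊤).val) = true ↔
        Primitive (QuasiGen (ofHeyting A))) := by
  obtain ⟨f, hf, h⟩ := ptp_shF
  refine ⟨f, hf.isPolyTime, fun A _ n e ht => ?_⟩
  have : Finite A := Finite.of_equiv _ e
  have key : ∀ (g : A → A → A) (x y : A),
      ((opTable e g).getD (e.symm x) []).getD (e.symm y) 0 = (e.symm (g x y)).val := by
    intro g x y
    simp [opTable, List.getD_eq_getElem?_getD]
  have hlen : (opTable e fun a b => a ⊓ b).length = n := by simp [opTable]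
  rw [h, (irreducible_case ht).1,
    ← shF_iff A (f := (ofHeyting A).op) (fun _ _ => rfl) fun _ _ => rfl]
  simp only [hlen]
  refine shF_num e (fun k x y => ?_) ⊥
  unfold look Alg.op
  split_ifs <;> exact key _ x y

end Pool.Agent.P.MP_51e3d2_lc
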