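import Mathlib
import Pool.Agent.P.MP_51e3d2_lc.Univ

/-!
Numerical tables for finite algebras; the criterion is primitive recursive.
-/

set_option autoImplicit false

namespace Pool.Agent.P.MP_51e3d2_lc

/-- Size, three operation codes and two constants. -/
abbrev Tab : Type := ℕ × ℕ × ℕ × ℕ × ℕ × ℕ

/-- The `i`-th digit of `c` in base `m`. -/
def dig (m c i : ℕ) : ℕ := c / m ^ i % m

/-- The binary operation on `0, ..., m-1` with code `c`. -/
def op2 (m c i j : ℕ) : ℕ := dig m c (i * m + j)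

/-- The map with code `c` respects the operations with codes `a` and `b`. -/
def Resp (m n a b c : ℕ) : Prop :=
  ∀ i < m, ∀ j < m, dig n c (op2 m a i j) = op2 n b (dig n c i) (dig n c j)

/-- The map with code `c` is a homomorphism. -/
def HomT (T U : Tab) (c : ℕ) : Prop :=
  Resp T.1 U.1 T.2.1 U.2.1 c ∧ Resp T.1 U.1 T.2.2.1 U.2.2.1 c ∧
    Resp T.1 U.1 T.2.2.2.1 U.2.2.2.1 c ∧
    dig U.1 c T.2.2.2.2.1 = U.2.2.2.2.1 ∧ dig U.1 c T.2.2.2.2.2 = U.2.2.2.2.2

/-- Table form of `Sep`. -/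
def SepT (T U : Tab) : Prop :=
  ∀ i < T.1, ∀ j < T.1, i = j ∨ ∃ c < U.1 ^ T.1, HomT T U c ∧ ¬ dig U.1 c i = dig U.1 c j

/-- Table form of `Onto`. -/
def OntoT (T U : Tab) : Prop :=
  ∃ c < U.1 ^ T.1, HomT T U c ∧ ∀ j < U.1, ∃ i < T.1, dig U.1 c i = j

/-- Quantification over all tables of size at most `N`. -/
def AllTab (N : ℕ) (P : Tab → Prop) : Prop :=
  ∀ m < N + 1, ∀ a < m ^ (m * m), ∀ b < m ^ (m * m), ∀ c < m ^ (m * m), ∀ z < m, ∀ o < m,
    P (m, a, b, c, z, o)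

/-- Table form of `Crit`. -/
def CritT (T : Tab) : Prop :=
  AllTab (T.1 ^ (T.1 ^ T.1)) fun B => AllTab T.1 fun C =>
    ¬ SepT B T ∨ ¬ SepT C T ∨ ¬ OntoT B C ∨ SepT C B

/-- The code `a` describes the table `L`. -/
def Agree (m a : ℕ) (L : List (List ℕ)) : Prop :=
  ∀ i < m, ∀ j < m, op2 m a i j = (L.getD i []).getD j 0

/-- The input format: size, three operation tables and two constants. -/
abbrev Inp : Type := ℕ × List (List ℕ) × List (List ℕ) × List (List ℕ) × ℕ × ℕ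

/-- The decision predicate on inputs. -/
def Dec (x : Inp) : Prop :=
  ∃ a < x.1 ^ (x.1 * x.1), ∃ b < x.1 ^ (x.1 * x.1), ∃ c < x.1 ^ (x.1 * x.1),
    Agree x.1 a x.2.1 ∧ Agree x.1 b x.2.2.1 ∧ Agree x.1 c x.2.2.2.1 ∧
      CritT (x.1, a, b, c, x.2.2.2.2.1, x.2.2.2.2.2)

section primrec

open Primrec

variable {α : Type} [Primcodable α]

lemma pow_pr {f g : α → ℕ} (hf : Primrec f) (hg : Primrec g) : Primrec fun a => f a ^ g a :=
  (Primrec₂.unpaired'.1 Nat.Primrec.pow).comp hf hg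

lemma all_pr {f : α → ℕ} {P : α → ℕ → Prop} (hf : Primrec f)
    (hP : PrimrecPred fun p : α × ℕ => P p.1 p.2) : PrimrecPred fun a => ∀ x < f a, P a x := by
  have h0 : PrimrecRel P := hP
  have h1 : PrimrecRel fun (x : ℕ) (a : α) => P a x := PrimrecRel.swap h0
  exact (h1.forall_mem_list.comp (list_range.comp hf) Primrec.id).of_eq (by simp)

lemma ex_pr {f : α → ℕ} {P : α → ℕ → Prop} (hf : Primrec f)
    (hP : PrimrecPred fun p : α × ℕ => P p.1 p.2) : PrimrecPred fun a => ∃ x < f a, P a x := by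
  have h0 : PrimrecRel P := hP
  have h1 : PrimrecRel fun (x : ℕ) (a : α) => P a x := PrimrecRel.swap h0
  exact (h1.exists_mem_list.comp (list_range.comp hf) Primrec.id).of_eq (by simp)

lemma eq_pr {f g : α → ℕ} (hf : Primrec f) (hg : Primrec g) : PrimrecPred fun a => f a = g a :=
  Primrec.eq.comp hf hg

lemma dig_pr {m c i : α → ℕ} (hm : Primrec m) (hc : Primrec c) (hi : Primrec i) :
    Primrec fun a => dig (m a) (c a) (i a) :=
  nat_mod.comp (nat_div.comp hc (pow_pr hm hi)) hm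

lemma op2_pr {m c i j : α → ℕ} (hm : Primrec m) (hc : Primrec c) (hi : Primrec i)
    (hj : Primrec j) : Primrec fun a => op2 (m a) (c a) (i a) (j a) :=
  dig_pr hm hc (nat_add.comp (nat_mul.comp hi hm) hj)

lemma resp_pr {m n a b c : α → ℕ} (hm : Primrec m) (hn : Primrec n) (ha : Primrec a)
    (hb : Primrec b) (hc : Primrec c) :
    PrimrecPred fun x => Resp (m x) (n x) (a x) (b x) (c x) := by
  refine all_pr hm (all_pr (hm.comp fst) ?_)
  have m' := hm.comp (fst.comp (fst (α := α × ℕ) (β := ℕ)))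
  have n' := hn.comp (fst.comp (fst (α := α × ℕ) (β := ℕ)))
  have a' := ha.comp (fst.comp (fst (α := α × ℕ) (β := ℕ)))
  have b' := hb.comp (fst.comp (fst (α := α × ℕ) (β := ℕ)))
  have c' := hc.comp (fst.comp (fst (α := α × ℕ) (β := ℕ)))
  have i' : Primrec fun p : (α × ℕ) × ℕ => p.1.2 := snd.comp fst
  have j' : Primrec fun p : (α × ℕ) × ℕ => p.2 := snd
  exact eq_pr (dig_pr n' c' (op2_pr m' a' i' j')) (op2_pr n' b' (dig_pr n' c' i') (dig_pr n' c' j'))

lemma t1 {T : α → Tab} (h : Primrec T) : Primrec fun x => (T x).1 := fst.comp h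
lemma t2 {T : α → Tab} (h : Primrec T) : Primrec fun x => (T x).2.1 := fst.comp (snd.comp h)
lemma t3 {T : α → Tab} (h : Primrec T) : Primrec fun x => (T x).2.2.1 :=
  fst.comp (snd.comp (snd.comp h))
lemma t4 {T : α → Tab} (h : Primrec T) : Primrec fun x => (T x).2.2.2.1 :=
  fst.comp (snd.comp (snd.comp (snd.comp h)))
lemma t5 {T : α → Tab} (h : Primrec T) : Primrec fun x => (T x).2.2.2.2.1 :=
  fst.comp (snd.comp (snd.comp (snd.comp (snd.comp h))))
lemma t6 {T : α → Tab} (h : Primrec T) : Primrec fun x => (T x).2.2.2.2.2 :=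
  snd.comp (snd.comp (snd.comp (snd.comp (snd.comp h))))

lemma homT_pr {T U : α → Tab} {c : α → ℕ} (hT : Primrec T) (hU : Primrec U) (hc : Primrec c) :
    PrimrecPred fun x => HomT (T x) (U x) (c x) :=
  (resp_pr (t1 hT) (t1 hU) (t2 hT) (t2 hU) hc).and
    ((resp_pr (t1 hT) (t1 hU) (t3 hT) (t3 hU) hc).and
      ((resp_pr (t1 hT) (t1 hU) (t4 hT) (t4 hU) hc).and
        ((eq_pr (dig_pr (t1 hU) hc (t5 hT)) (t5 hU)).and
          (eq_pr (dig_pr (t1 hU) hc (t6 hT)) (t6 hU)))))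

lemma sepT_pr {T U : α → Tab} (hT : Primrec T) (hU : Primrec U) :
    PrimrecPred fun x => SepT (T x) (U x) := by
  refine all_pr (t1 hT) (all_pr ((t1 hT).comp fst) ?_)
  have T' := hT.comp (fst.comp (fst (α := α × ℕ) (β := ℕ)))
  have U' := hU.comp (fst.comp (fst (α := α × ℕ) (β := ℕ)))
  have i' : Primrec fun p : (α × ℕ) × ℕ => p.1.2 := snd.comp fst
  have j' : Primrec fun p : (α × ℕ) × ℕ => p.2 := snd
  refine (eq_pr i' j').or (ex_pr (pow_pr (t1 U') (t1 T')) ?_)
  exact (homT_pr (T'.comp fst) (U'.comp fst) snd).and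
    (eq_pr (dig_pr (t1 (U'.comp fst)) snd (i'.comp fst))
      (dig_pr (t1 (U'.comp fst)) snd (j'.comp fst))).not

lemma ontoT_pr {T U : α → Tab} (hT : Primrec T) (hU : Primrec U) :
    PrimrecPred fun x => OntoT (T x) (U x) := by
  refine ex_pr (pow_pr (t1 hU) (t1 hT)) ?_
  have T' := hT.comp (fst (α := α) (β := ℕ))
  have U' := hU.comp (fst (α := α) (β := ℕ))
  refine (homT_pr T' U' snd).and (all_pr (t1 U') (ex_pr (t1 (T'.comp fst)) ?_))
  exact eq_pr (dig_pr (t1 (U'.comp (fst.comp fst))) (snd.comp (fst.comp fst)) snd)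
    (snd.comp fst)

lemma allTab_pr {N : α → ℕ} {P : α → Tab → Prop} (hN : Primrec N)
    (hP : PrimrecPred fun p : α × Tab => P p.1 p.2) :
    PrimrecPred fun x => AllTab (N x) (P x) := by
  refine all_pr (succ.comp hN) ?_
  have m1 : Primrec fun p : α × ℕ => p.2 := snd
  have s1 := pow_pr m1 (nat_mul.comp m1 m1)
  refine all_pr s1 (all_pr (s1.comp fst) (all_pr (s1.comp (fst.comp fst))
    (all_pr (m1.comp (fst.comp (fst.comp fst)))
      (all_pr (m1.comp (fst.comp (fst.comp (fst.comp fst)))) ?_))))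
  have h1 : Primrec fun p : (((((α × ℕ) × ℕ) × ℕ) × ℕ) × ℕ) × ℕ =>
      ((p.1.1.1.1.1.1, (p.1.1.1.1.1.2, p.1.1.1.1.2, p.1.1.1.2, p.1.1.2, p.1.2, p.2)) : α × Tab) :=
    (fst.comp (fst.comp (fst.comp (fst.comp (fst.comp fst))))).pair
      ((snd.comp (fst.comp (fst.comp (fst.comp (fst.comp fst))))).pair
        ((snd.comp (fst.comp (fst.comp (fst.comp fst)))).pair
          ((snd.comp (fst.comp (fst.comp fst))).pair
            ((snd.comp (fst.comp fst)).pair ((snd.comp fst).pair snd)))))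
  exact hP.comp h1

lemma critT_pr {T : α → Tab} (hT : Primrec T) : PrimrecPred fun x => CritT (T x) := by
  refine allTab_pr (pow_pr (t1 hT) (pow_pr (t1 hT) (t1 hT))) ?_
  refine allTab_pr (P := fun (p : α × Tab) (C : Tab) =>
    ¬ SepT p.2 (T p.1) ∨ ¬ SepT C (T p.1) ∨ ¬ OntoT p.2 C ∨ SepT C p.2) (t1 (hT.comp fst)) ?_
  have T' := hT.comp (fst.comp (fst (α := α × Tab) (β := Tab)))
  have B' : Primrec fun p : (α × Tab) × Tab => p.1.2 := snd.comp fst
  have C' : Primrec fun p : (α × Tab) × Tab => p.2 := snd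
  exact (sepT_pr B' T').not.or ((sepT_pr C' T').not.or ((ontoT_pr B' C').not.or (sepT_pr C' B')))

lemma agree_pr {m a : α → ℕ} {L : α → List (List ℕ)} (hm : Primrec m) (ha : Primrec a)
    (hL : Primrec L) : PrimrecPred fun x => Agree (m x) (a x) (L x) := by
  refine all_pr hm (all_pr (hm.comp fst) ?_)
  have m' := hm.comp (fst.comp (fst (α := α × ℕ) (β := ℕ)))
  have a' := ha.comp (fst.comp (fst (α := α × ℕ) (β := ℕ)))
  have L' := hL.comp (fst.comp (fst (α := α × ℕ) (β := ℕ)))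
  have i' : Primrec fun p : (α × ℕ) × ℕ => p.1.2 := snd.comp fst
  have j' : Primrec fun p : (α × ℕ) × ℕ => p.2 := snd
  exact eq_pr (op2_pr m' a' i' j') ((list_getD 0).comp ((list_getD []).comp L' i') j')

theorem dec_pr : PrimrecPred Dec := by
  have m1 : Primrec fun x : Inp => x.1 := fst
  have s1 := pow_pr m1 (nat_mul.comp m1 m1)
  refine ex_pr s1 (ex_pr (s1.comp fst) (ex_pr (s1.comp (fst.comp fst)) ?_))
  have x' : Primrec fun p : ((Inp × ℕ) × ℕ) × ℕ => p.1.1.1 := fst.comp (fst.comp fst)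
  have a' : Primrec fun p : ((Inp × ℕ) × ℕ) × ℕ => p.1.1.2 := snd.comp (fst.comp fst)
  have b' : Primrec fun p : ((Inp × ℕ) × ℕ) × ℕ => p.1.2 := snd.comp fst
  have c' : Primrec fun p : ((Inp × ℕ) × ℕ) × ℕ => p.2 := snd
  have n' := fst.comp x'
  refine (agree_pr n' a' (fst.comp (snd.comp x'))).and
    ((agree_pr n' b' (fst.comp (snd.comp (snd.comp x')))).and
      ((agree_pr n' c' (fst.comp (snd.comp (snd.comp (snd.comp x'))))).and ?_))
  exact critT_pr (n'.pair (a'.pair (b'.pair (c'.pair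
    ((fst.comp (snd.comp (snd.comp (snd.comp (snd.comp x'))))).pair
      (snd.comp (snd.comp (snd.comp (snd.comp (snd.comp x'))))))))))

end primrec

end Pool.Agent.P.MP_51e3d2_lc
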