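import Mathlib
import Pool.Agent.P.MP_51e3d2_lc.Tab

/-!
Correctness of the tables and the decision procedure.
-/

set_option autoImplicit false

namespace Pool.Agent.P.MP_51e3d2_lc

lemma exists_code1 {m n : ℕ} (f : Fin m → Fin n) :
    ∃ c < n ^ m, ∀ i : Fin m, dig n c i = f i := by
  refine ⟨finFunctionFinEquiv f, (finFunctionFinEquiv f).2, fun i => ?_⟩
  have h := finFunctionFinEquiv_symm_apply_val (finFunctionFinEquiv f) i
  rw [Equiv.symm_apply_apply] at h
  exact h.symm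

lemma exists_code2 {m : ℕ} (f : Fin m → Fin m → Fin m) :
    ∃ a < m ^ (m * m), ∀ i j : Fin m, op2 m a i j = f i j := by
  obtain ⟨c, hc, h⟩ := exists_code1 (m := m * m) (n := m)
    fun k => f (finProdFinEquiv.symm k).1 (finProdFinEquiv.symm k).2
  refine ⟨c, hc, fun i j => ?_⟩
  have := h (finProdFinEquiv (i, j))
  rw [Equiv.symm_apply_apply] at this
  rw [← this, op2, finProdFinEquiv_apply_val]
  congr 1
  ring

/-- The code `a` describes the operation `f` in the numbering `e`. -/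
def RepOp {X : Type} {m : ℕ} (e : Fin m ≃ X) (a : ℕ) (f : X → X → X) : Prop :=
  ∀ i j : Fin m, op2 m a i j = (e.symm (f (e i) (e j))).val

/-- The table `T` describes the algebra `B` in the numbering `e`. -/
structure Rep (T : Tab) (B : Alg) (e : Fin T.1 ≃ B.carrier) : Prop where
  meet : RepOp e T.2.1 B.meet
  join : RepOp e T.2.2.1 B.join
  imp : RepOp e T.2.2.2.1 B.imp
  zero : T.2.2.2.2.1 = (e.symm B.zero).val
  one : T.2.2.2.2.2 = (e.symm B.one).val

/-- The code `c` describes the map `h`. -/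
def RepMap {X Y : Type} {m n : ℕ} (e : Fin m ≃ X) (e' : Fin n ≃ Y) (c : ℕ) (h : X → Y) : Prop :=
  ∀ i : Fin m, dig n c i = (e'.symm (h (e i))).val

lemma exists_repMap_code {X Y : Type} {m n : ℕ} (e : Fin m ≃ X) (e' : Fin n ≃ Y) (h : X → Y) :
    ∃ c < n ^ m, RepMap e e' c h :=
  exists_code1 fun i => e'.symm (h (e i))

lemma exists_repMap_fun {X Y : Type} {m n : ℕ} (e : Fin m ≃ X) (e' : Fin n ≃ Y) (hn : 0 < n)
    (c : ℕ) : ∃ h : X → Y, RepMap e e' c h :=
  ⟨fun x => e' ⟨dig n c (e.symm x), Nat.mod_lt _ hn⟩, fun i => by simp⟩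

lemma resp_iff {X Y : Type} {m n : ℕ} {e : Fin m ≃ X} {e' : Fin n ≃ Y} {a b c : ℕ}
    {f : X → X → X} {g : Y → Y → Y} {h : X → Y} (ha : RepOp e a f) (hb : RepOp e' b g)
    (hc : RepMap e e' c h) : Resp m n a b c ↔ ∀ x y, h (f x y) = g (h x) (h y) := by
  have key : ∀ i j : Fin m, dig n c (op2 m a i j) = op2 n b (dig n c i) (dig n c j) ↔
      h (f (e i) (e j)) = g (h (e i)) (h (e j)) := by
    intro i j
    rw [ha i j, hc, hc i, hc j, hb]
    simp only [Equiv.apply_symm_apply]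
    rw [Fin.val_inj, e'.symm.apply_eq_iff_eq]
  constructor
  · intro H x y
    have := (key (e.symm x) (e.symm y)).1 (H _ (e.symm x).2 _ (e.symm y).2)
    simpa using this
  · intro H i hi j hj
    exact (key ⟨i, hi⟩ ⟨j, hj⟩).2 (H _ _)

lemma const_iff {X Y : Type} {m n : ℕ} {e : Fin m ≃ X} {e' : Fin n ≃ Y} {c : ℕ} {h : X → Y}
    (hc : RepMap e e' c h) (x : X) (y : Y) :
    dig n c (e.symm x).val = (e'.symm y).val ↔ h x = y := by
  rw [hc]
  simp only [Equiv.apply_symm_apply]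
  rw [Fin.val_inj, e'.symm.apply_eq_iff_eq]

lemma homT_iff {T U : Tab} {B C : Alg} {e : Fin T.1 ≃ B.carrier} {e' : Fin U.1 ≃ C.carrier}
    (hT : Rep T B e) (hU : Rep U C e') {c : ℕ} {h : B.carrier → C.carrier}
    (hc : RepMap e e' c h) : HomT T U c ↔ IsHom B C h := by
  unfold HomT
  rw [resp_iff hT.meet hU.meet hc, resp_iff hT.join hU.join hc, resp_iff hT.imp hU.imp hc,
    hT.zero, hU.zero, hT.one, hU.one, const_iff hc, const_iff hc]
  exact ⟨fun H => ⟨H.1, H.2.1, H.2.2.1, H.2.2.2.1, H.2.2.2.2⟩,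
    fun H => ⟨H.meet, H.join, H.imp, H.zero, H.one⟩⟩

lemma sepT_iff {T U : Tab} {B C : Alg} {e : Fin T.1 ≃ B.carrier} {e' : Fin U.1 ≃ C.carrier}
    (hT : Rep T B e) (hU : Rep U C e') : SepT T U ↔ Sep B C := by
  have hn : 0 < U.1 := Fin.pos (e'.symm C.zero)
  constructor
  · intro H x y hxy
    rcases H _ (e.symm x).2 _ (e.symm y).2 with h | ⟨c, -, hc, hne⟩
    · exact absurd (e.symm.injective (Fin.ext h)) hxy
    · obtain ⟨h, hh⟩ := exists_repMap_fun e e' hn c
      refine ⟨h, (homT_iff hT hU hh).1 hc, fun heq => hne ?_⟩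
      rw [hh, hh]
      simp [heq]
  · intro H i hi j hj
    by_cases hij : i = j
    · exact Or.inl hij
    · right
      obtain ⟨h, hh, hne⟩ := H (e ⟨i, hi⟩) (e ⟨j, hj⟩) fun heq =>
        hij (congrArg Fin.val (e.injective heq))
      obtain ⟨c, hc, hr⟩ := exists_repMap_code e e' h
      refine ⟨c, hc, (homT_iff hT hU hr).2 hh, fun heq => hne ?_⟩
      have h1 := hr ⟨i, hi⟩
      have h2 := hr ⟨j, hj⟩
      apply e'.symm.injective
      apply Fin.ext
      rw [← h1, ← h2]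
      exact heq

lemma ontoT_iff {T U : Tab} {B C : Alg} {e : Fin T.1 ≃ B.carrier} {e' : Fin U.1 ≃ C.carrier}
    (hT : Rep T B e) (hU : Rep U C e') : OntoT T U ↔ Onto B C := by
  have hn : 0 < U.1 := Fin.pos (e'.symm C.zero)
  constructor
  · rintro ⟨c, -, hc, hs⟩
    obtain ⟨h, hh⟩ := exists_repMap_fun e e' hn c
    refine ⟨h, (homT_iff hT hU hh).1 hc, fun y => ?_⟩
    obtain ⟨i, hi, hiy⟩ := hs _ (e'.symm y).2
    refine ⟨e ⟨i, hi⟩, ?_⟩
    apply e'.symm.injective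
    apply Fin.ext
    rw [← hh ⟨i, hi⟩]
    exact hiy
  · rintro ⟨h, hh, hs⟩
    obtain ⟨c, hc, hr⟩ := exists_repMap_code e e' h
    refine ⟨c, hc, (homT_iff hT hU hr).2 hh, fun j hj => ?_⟩
    obtain ⟨x, hx⟩ := hs (e' ⟨j, hj⟩)
    refine ⟨(e.symm x).val, (e.symm x).2, ?_⟩
    rw [hr]
    simp [hx]

/-- The algebra described by a table. -/
def tabAlg (m a b c z o : ℕ) (hz : z < m) (ho : o < m) : Alg where
  carrier := Fin m
  meet i j := ⟨op2 m a i j, Nat.mod_lt _ (Fin.pos i)⟩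
  join i j := ⟨op2 m b i j, Nat.mod_lt _ (Fin.pos i)⟩
  imp i j := ⟨op2 m c i j, Nat.mod_lt _ (Fin.pos i)⟩
  zero := ⟨z, hz⟩
  one := ⟨o, ho⟩

lemma tabAlg_rep (m a b c z o : ℕ) (hz : z < m) (ho : o < m) :
    Rep (m, a, b, c, z, o) (tabAlg m a b c z o hz ho) (Equiv.refl (Fin m)) :=
  ⟨fun _ _ => rfl, fun _ _ => rfl, fun _ _ => rfl, rfl, rfl⟩

lemma allTab_elim {N : ℕ} {P : Tab → Prop} (H : AllTab N P) (B : Alg) [Finite B.carrier]
    (hB : Nat.card B.carrier ≤ N) : ∃ (T : Tab) (e : Fin T.1 ≃ B.carrier), Rep T B e ∧ P T := by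
  let e : Fin (Nat.card B.carrier) ≃ B.carrier := (Finite.equivFin B.carrier).symm
  obtain ⟨a, ha, ha'⟩ := exists_code2 fun i j => e.symm (B.meet (e i) (e j))
  obtain ⟨b, hb, hb'⟩ := exists_code2 fun i j => e.symm (B.join (e i) (e j))
  obtain ⟨c, hc, hc'⟩ := exists_code2 fun i j => e.symm (B.imp (e i) (e j))
  exact ⟨(Nat.card B.carrier, a, b, c, (e.symm B.zero).val, (e.symm B.one).val), e,
    ⟨ha', hb', hc', rfl, rfl⟩,
    H _ (Nat.lt_succ_of_le hB) a ha b hb c hc _ (e.symm B.zero).2 _ (e.symm B.one).2⟩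

lemma allTab_intro {N : ℕ} {P : Tab → Prop}
    (H : ∀ (T : Tab) (B : Alg) (e : Fin T.1 ≃ B.carrier), Rep T B e → T.1 ≤ N → P T) :
    AllTab N P := by
  intro m hm a _ b _ c _ z hz o ho
  exact H _ _ _ (tabAlg_rep m a b c z o hz ho) (Nat.le_of_lt_succ hm)

lemma critT_iff {T : Tab} {A : Alg} {e : Fin T.1 ≃ A.carrier} (hT : Rep T A e) :
    CritT T ↔ Crit A T.1 := by
  constructor
  · intro H B C _ _ hB hC hBA hCA hBC
    obtain ⟨TB, eB, rB, H1⟩ := allTab_elim H B hB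
    obtain ⟨TC, eC, rC, H2⟩ := allTab_elim H1 C hC
    rw [sepT_iff rB hT, sepT_iff rC hT, ontoT_iff rB rC, sepT_iff rC rB] at H2
    tauto
  · intro H
    refine allTab_intro fun TB B eB rB hB => allTab_intro fun TC C eC rC hC => ?_
    rw [sepT_iff rB hT, sepT_iff rC hT, ontoT_iff rB rC, sepT_iff rC rB]
    have : Finite B.carrier := Finite.of_equiv _ eB
    have : Finite C.carrier := Finite.of_equiv _ eC
    have cB : Nat.card B.carrier = TB.1 := by rw [← Nat.card_congr eB]; simp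
    have cC : Nat.card C.carrier = TC.1 := by rw [← Nat.card_congr eC]; simp
    have := H B C (cB ▸ hB) (cC ▸ hC)
    tauto

lemma agree_iff {X : Type} {m : ℕ} (e : Fin m ≃ X) (a : ℕ) (f : X → X → X) :
    Agree m a (opTable e f) ↔ RepOp e a f := by
  have key : ∀ i j : Fin m,
      ((opTable e f).getD i []).getD j 0 = (e.symm (f (e i) (e j))).val := by
    intro i j
    simp [opTable, List.getD_eq_getElem?_getD]
  constructor
  · intro H i j
    rw [← key]
    exact H _ i.2 _ j.2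
  · intro H i hi j hj
    exact (H ⟨i, hi⟩ ⟨j, hj⟩).trans (key ⟨i, hi⟩ ⟨j, hj⟩).symm

theorem dec_iff (A : Alg) (n : ℕ) (e : Fin n ≃ A.carrier) :
    Dec (n, opTable e A.meet, opTable e A.join, opTable e A.imp, (e.symm A.zero).val,
      (e.symm A.one).val) ↔ Primitive (QuasiGen A) := by
  rw [primitive_iff_crit e]
  constructor
  · rintro ⟨a, -, b, -, c, -, ha, hb, hc, H⟩
    have r : Rep (n, a, b, c, (e.symm A.zero).val, (e.symm A.one).val) A e :=
      ⟨(agree_iff e _ _).1 ha, (agree_iff e _ _).1 hb, (agree_iff e _ _).1 hc, rfl, rfl⟩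
    exact (critT_iff r).1 H
  · intro H
    obtain ⟨a, ha, ha'⟩ := exists_code2 fun i j => e.symm (A.meet (e i) (e j))
    obtain ⟨b, hb, hb'⟩ := exists_code2 fun i j => e.symm (A.join (e i) (e j))
    obtain ⟨c, hc, hc'⟩ := exists_code2 fun i j => e.symm (A.imp (e i) (e j))
    have r : Rep (n, a, b, c, (e.symm A.zero).val, (e.symm A.one).val) A e :=
      ⟨ha', hb', hc', rfl, rfl⟩
    exact ⟨a, ha, b, hb, c, hc, (agree_iff e _ _).2 ha', (agree_iff e _ _).2 hb',
      (agree_iff e _ _).2 hc', (critT_iff r).2 H⟩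

theorem main :
    ∃ f : ℕ × List (List ℕ) × List (List ℕ) × List (List ℕ) × ℕ × ℕ → Bool, Computable f ∧
      ∀ (A : Type) [HeytingAlgebra A] (n : ℕ) (e : Fin n ≃ A),
        f (n, opTable e (fun a b => a ⊓ b), opTable e (fun a b => a ⊔ b),
            opTable e (fun a b => a ⇨ b), (e.symm ⊥).val, (e.symm ⊤).val) = true ↔
          Primitive (QuasiGen (ofHeyting A)) := by
  classical
  refine ⟨fun x => decide (Dec x), dec_pr.decide.to_comp, fun A _ n e => ?_⟩
  rw [decide_eq_true_iff]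
  exact dec_iff (ofHeyting A) n e

end Pool.Agent.P.MP_51e3d2_lc
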